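import Pool.Agent.L7h9.WC.Defs
set_option autoImplicit false

/-!
The polynomials `∏_i (∑_e c_{i,e} X_e ^ a_{i,e}) + Q` with complex numbers `c_{i,e}` of absolute
value one and with `Q` of smaller weighted degree: estimates for the zeros.
-/

namespace Pool.Agent.L7h9.WC

open MvPolynomial

section est

variable {n k : ℕ}

theorem norm_eval_le (Q : MvPolynomial (Fin (n + 1)) ℂ) (i0 : Fin (n + 1)) {b y : ℝ}
    (hy1 : 1 ≤ y) {x : Fin (n + 1) → ℂ} (hx0 : ‖x i0‖ = y)
    (hx : ∀ j, ‖x (i0.succAbove j)‖ ≤ b) {k0 : ℕ} (hD : ∀ μ ∈ Q.support, μ i0 ≤ k0) :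
    ‖eval x Q‖ ≤ (∑ μ ∈ Q.support, ‖Q.coeff μ‖ * ∏ j, b ^ μ (i0.succAbove j)) * y ^ k0 := by
  rw [MvPolynomial.eval_eq', Finset.sum_mul]
  refine (norm_sum_le _ _).trans (Finset.sum_le_sum fun μ hμ => ?_)
  rw [norm_mul, norm_prod, Fin.prod_univ_succAbove _ i0, mul_assoc]
  refine mul_le_mul_of_nonneg_left ?_ (norm_nonneg _)
  rw [mul_comm (∏ j, b ^ μ (i0.succAbove j))]
  have hb : ∏ j, ‖x (i0.succAbove j) ^ μ (i0.succAbove j)‖ ≤ ∏ j, b ^ μ (i0.succAbove j) := by
    refine Finset.prod_le_prod (fun _ _ => norm_nonneg _) fun j _ => ?_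
    rw [norm_pow]
    exact pow_le_pow_left₀ (norm_nonneg _) (hx j) _
  refine mul_le_mul ?_ hb (Finset.prod_nonneg fun _ _ => norm_nonneg _) (by positivity)
  rw [norm_pow, hx0]
  exact pow_le_pow_right₀ hy1 (hD μ hμ)

theorem exists_bound (c : Fin k → Fin (n + 1) → ℂ) (hc : ∀ i e, ‖c i e‖ = 1)
    {w : Fin (n + 1) → ℕ} {a : Fin k → Fin (n + 1) → ℕ} {κ : Fin k → ℕ}
    (hκ : ∀ i, 0 < κ i) (ha : ∀ i e, w e * a i e = κ i)
    {Q : MvPolynomial (Fin (n + 1)) ℂ}
    (hQ : ∀ μ, Q.coeff μ ≠ 0 → ∑ e, w e * μ e < ∑ i, κ i) (i0 : Fin (n + 1))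
    (β : Fin n → ℂ) : ∃ B : ℝ, 0 < B ∧ ∀ x : Fin (n + 1) → ℂ,
      (∀ j, ‖x (i0.succAbove j) - β j‖ ≤ 1) → eval x (rel c a Q) = 0 → ‖x‖ ≤ B := by
  set b : ℝ := ∑ j, (‖β j‖ + 1) with hb
  have hb0 : 0 ≤ b := Finset.sum_nonneg fun j _ => by positivity
  set C0 : ℝ := ∑ i, ∑ j, b ^ a i (i0.succAbove j) with hC0
  have hC00 : 0 ≤ C0 := Finset.sum_nonneg fun _ _ => Finset.sum_nonneg fun _ _ => by positivity
  set A : ℝ := ∑ μ ∈ Q.support, ‖Q.coeff μ‖ * ∏ j, b ^ μ (i0.succAbove j) with hA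
  have hA0 : 0 ≤ A := Finset.sum_nonneg fun _ _ => by positivity
  set k0 : ℕ := ∑ i, a i i0 with hk0
  have hsumκ : w i0 * k0 = ∑ i, κ i := by
    rw [hk0, Finset.mul_sum]
    exact Finset.sum_congr rfl fun i _ => ha i i0
  have hμ : ∀ μ ∈ Q.support, μ i0 < k0 := by
    intro μ hμ
    have h1 := hQ μ (MvPolynomial.mem_support_iff.1 hμ)
    have h2 : w i0 * μ i0 ≤ ∑ e, w e * μ e :=
      Finset.single_le_sum (f := fun e => w e * μ e) (fun _ _ => Nat.zero_le _)
        (Finset.mem_univ i0)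
    rw [← hsumκ] at h1
    exact lt_of_mul_lt_mul_left (lt_of_le_of_lt h2 h1) (Nat.zero_le _)
  have hapos : ∀ i e, 0 < a i e := by
    intro i e
    refine Nat.pos_of_ne_zero fun h0 => ?_
    have h1 := ha i e
    rw [h0, mul_zero] at h1
    exact (hκ i).ne h1
  refine ⟨2 * C0 + 1 + 2 ^ k * A + b, by positivity, fun x hx h0 => ?_⟩
  have hxj : ∀ j, ‖x (i0.succAbove j)‖ ≤ ‖β j‖ + 1 := fun j => by
    have h1 := norm_sub_norm_le (x (i0.succAbove j)) (β j)
    have h2 := hx j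
    linarith
  have hsum : ∑ j, ‖x (i0.succAbove j)‖ ≤ b := Finset.sum_le_sum fun j _ => hxj j
  have hxb : ∀ j, ‖x (i0.succAbove j)‖ ≤ b := fun j =>
    (Finset.single_le_sum (f := fun j => ‖x (i0.succAbove j)‖) (fun _ _ => norm_nonneg _)
      (Finset.mem_univ j)).trans hsum
  have hpos : (0 : ℝ) ≤ 2 ^ k * A := by positivity
  have key : ‖x i0‖ ≤ 2 * C0 + 1 + 2 ^ k * A := by
    by_contra hcon
    push Not at hcon
    set y : ℝ := ‖x i0‖ with hy
    have hy1 : 1 ≤ y := by linarith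
    have hy0 : 0 < y := by linarith
    have hL : ∀ i, y ^ a i i0 / 2 ≤ ‖∑ e, c i e * x e ^ a i e‖ := by
      intro i
      rw [Fin.sum_univ_succAbove _ i0]
      have h1 : ‖∑ j, c i (i0.succAbove j) * x (i0.succAbove j) ^ a i (i0.succAbove j)‖ ≤ C0 := by
        refine (norm_sum_le _ _).trans (le_trans ?_ (Finset.single_le_sum
          (f := fun i => ∑ j, b ^ a i (i0.succAbove j))
          (fun _ _ => Finset.sum_nonneg fun _ _ => by positivity) (Finset.mem_univ i)))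
        refine Finset.sum_le_sum fun j _ => ?_
        rw [norm_mul, hc, one_mul, norm_pow]
        exact pow_le_pow_left₀ (norm_nonneg _) (hxb j) _
      have h2 := norm_sub_le_norm_add (c i i0 * x i0 ^ a i i0)
        (∑ j, c i (i0.succAbove j) * x (i0.succAbove j) ^ a i (i0.succAbove j))
      rw [norm_mul, hc, one_mul, norm_pow] at h2
      have h3 : y ≤ y ^ a i i0 := le_self_pow₀ hy1 (hapos i i0).ne'
      linarith
    have hprod : y ^ k0 / 2 ^ k ≤ ‖eval x (∏ i, ∑ e, C (c i e) * X e ^ a i e)‖ := by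
      rw [map_prod, norm_prod]
      have h1 : ∀ i, ‖eval x (∑ e, C (c i e) * X e ^ a i e : MvPolynomial (Fin (n + 1)) ℂ)‖ =
          ‖∑ e, c i e * x e ^ a i e‖ := fun i => by
        rw [map_sum]
        congr 1
        exact Finset.sum_congr rfl fun e _ => by rw [map_mul, eval_C, map_pow, eval_X]
      simp only [h1]
      calc y ^ k0 / 2 ^ k = ∏ i : Fin k, y ^ a i i0 / 2 := by
            rw [Finset.prod_div_distrib, Finset.prod_pow_eq_pow_sum, Finset.prod_const,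
              Finset.card_univ, Fintype.card_fin]
        _ ≤ ∏ i, ‖∑ e, c i e * x e ^ a i e‖ :=
            Finset.prod_le_prod (fun _ _ => by positivity) fun i _ => hL i
    have h3 : eval x (∏ i, ∑ e, C (c i e) * X e ^ a i e) = -eval x Q := by
      unfold rel at h0
      rw [map_add] at h0
      exact eq_neg_of_add_eq_zero_left h0
    rw [h3, norm_neg] at hprod
    rcases Nat.eq_zero_or_pos k0 with hk | hk
    · have h4 := norm_eval_le Q i0 hy1 hy.symm hxb (k0 := 0) fun μ hμ' => by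
        have := hμ μ hμ'
        omega
      have h5 : A = 0 := by
        rw [hA]
        refine Finset.sum_eq_zero fun μ hμ' => ?_
        have := hμ μ hμ'
        omega
      rw [← hA, h5, zero_mul] at h4
      have h6 : 0 < y ^ k0 / 2 ^ k := by positivity
      linarith
    · have hQb : ‖eval x Q‖ ≤ A * y ^ (k0 - 1) :=
        norm_eval_le Q i0 hy1 hy.symm hxb fun μ hμ' => by
          have := hμ μ hμ'
          omega
      have h4 : y ^ k0 / 2 ^ k ≤ A * y ^ (k0 - 1) := hprod.trans hQb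
      have h5 : y ^ k0 = y * y ^ (k0 - 1) := by
        rw [← pow_succ']
        congr 1
        omega
      rw [h5, div_le_iff₀ (by positivity)] at h4
      have h6 : 0 < y ^ (k0 - 1) := by positivity
      have h7 : y ≤ 2 ^ k * A := by
        refine le_of_mul_le_mul_right ?_ h6
        linarith
      linarith
  refine (pi_norm_le_iff_of_nonneg (by positivity)).2 fun l => ?_
  rcases Fin.eq_self_or_eq_succAbove i0 l with rfl | ⟨j, rfl⟩
  · linarith
  · have := hxb j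
    linarith

/-- Estimates near a point where the zeros are simple and different from the zeros of `F`. -/
theorem exists_bounds {S : MvPolynomial (Fin (n + 1)) ℂ} {i0 : Fin (n + 1)} {β : Fin n → ℂ}
    (hbound : ∃ B : ℝ, 0 < B ∧ ∀ x : Fin (n + 1) → ℂ,
      (∀ j, ‖x (i0.succAbove j) - β j‖ ≤ 1) → eval x S = 0 → ‖x‖ ≤ B) (F : Polynomial ℂ)
    (hgen : ∀ x : ℂ, eval (i0.insertNth x β) S = 0 →
      eval (i0.insertNth x β) (pderiv i0 S) ≠ 0 ∧ F.eval x ≠ 0) :
    ∃ r B κ : ℝ, 0 < r ∧ 0 < B ∧ 0 < κ ∧ ∀ x : Fin (n + 1) → ℂ,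
      (∀ j, ‖x (i0.succAbove j) - β j‖ ≤ r) → eval x S = 0 →
      ‖x‖ ≤ B ∧ κ ≤ ‖eval x (pderiv i0 S)‖ ∧ κ ≤ ‖F.eval (x i0)‖ := by
  obtain ⟨B, hB, hbd⟩ := hbound
  have hcont : ∀ p : MvPolynomial (Fin (n + 1)) ℂ, Continuous fun x => eval x p := fun p =>
    MvPolynomial.continuous_eval p
  have hcl : ∀ r : ℝ, IsClosed {x : Fin (n + 1) → ℂ |
      (∀ j, ‖x (i0.succAbove j) - β j‖ ≤ r) ∧ eval x S = 0} := by
    intro r
    have h1 : IsClosed {x : Fin (n + 1) → ℂ | ∀ j, ‖x (i0.succAbove j) - β j‖ ≤ r} := by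
      simp only [Set.setOf_forall]
      exact isClosed_iInter fun j => isClosed_le
        (((continuous_apply (i0.succAbove j)).sub continuous_const).norm) continuous_const
    exact IsClosed.inter h1 (isClosed_eq (hcont _) continuous_const)
  have hcomp : ∀ r : ℝ, r ≤ 1 → IsCompact {x : Fin (n + 1) → ℂ |
      (∀ j, ‖x (i0.succAbove j) - β j‖ ≤ r) ∧ eval x S = 0} := by
    intro r hr
    refine Metric.isCompact_of_isClosed_isBounded (hcl r) ?_
    refine (Metric.isBounded_closedBall (x := (0 : Fin (n + 1) → ℂ)) (r := B)).subset ?_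
    rintro x ⟨h1, h2⟩
    rw [mem_closedBall_zero_iff]
    exact hbd x (fun j => (h1 j).trans hr) h2
  set f1 : (Fin (n + 1) → ℂ) → ℝ := fun x => ‖eval x (pderiv i0 S)‖ with hf1
  set f2 : (Fin (n + 1) → ℂ) → ℝ := fun x => ‖F.eval (x i0)‖ with hf2
  have hf1c : Continuous f1 := (hcont _).norm
  have hf2c : Continuous f2 := (F.continuous.comp (continuous_apply i0)).norm
  set dd : (Fin (n + 1) → ℂ) → ℝ := fun x => ∑ j, ‖x (i0.succAbove j) - β j‖ with hdd
  have hddc : Continuous dd := continuous_finsetSum _ fun j _ =>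
    ((continuous_apply (i0.succAbove j)).sub continuous_const).norm
  have hZ : IsCompact ({x : Fin (n + 1) → ℂ |
      (∀ j, ‖x (i0.succAbove j) - β j‖ ≤ 1) ∧ eval x S = 0} ∩
        {x | f1 x * f2 x = 0}) :=
    (hcomp 1 le_rfl).inter_right (isClosed_eq (hf1c.mul hf2c) continuous_const)
  obtain ⟨a, ha, haZ⟩ := hZ.exists_forall_le' hddc.continuousOn (a := 0) (by
    rintro x ⟨⟨-, h2⟩, h3⟩
    have hnn : 0 ≤ dd x := Finset.sum_nonneg fun _ _ => norm_nonneg _
    refine lt_of_le_of_ne hnn fun h0 => ?_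
    have h4 : ∀ j, x (i0.succAbove j) = β j := by
      intro j
      have h5 := (Finset.sum_eq_zero_iff_of_nonneg (fun j _ => norm_nonneg
        (x (i0.succAbove j) - β j))).1 h0.symm j (Finset.mem_univ j)
      exact sub_eq_zero.1 (norm_eq_zero.1 h5)
    have h5 : x = i0.insertNth (x i0) β := by
      funext l
      rcases Fin.eq_self_or_eq_succAbove i0 l with rfl | ⟨j, rfl⟩
      · rw [Fin.insertNth_apply_same]
      · rw [Fin.insertNth_apply_succAbove, h4]
    have h6 := hgen (x i0) (by rw [← h5]; exact h2)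
    rw [← h5] at h6
    have h7 : f1 x * f2 x = 0 := h3
    rcases mul_eq_zero.1 h7 with h8 | h8
    · exact h6.1 (norm_eq_zero.1 h8)
    · exact h6.2 (norm_eq_zero.1 h8))
  set r : ℝ := min 1 (a / (2 * (n + 1))) with hr
  have hr0 : 0 < r := lt_min one_pos (by positivity)
  have hpos : ∀ x : Fin (n + 1) → ℂ, ((∀ j, ‖x (i0.succAbove j) - β j‖ ≤ r) ∧
      eval x S = 0) → 0 < f1 x ∧ 0 < f2 x := by
    rintro x ⟨h1, h2⟩
    by_contra hcon
    have h3 : f1 x * f2 x = 0 := by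
      by_contra h4
      refine hcon ⟨lt_of_le_of_ne (norm_nonneg _) (Ne.symm (left_ne_zero_of_mul h4)),
        lt_of_le_of_ne (norm_nonneg _) (Ne.symm (right_ne_zero_of_mul h4))⟩
    have h5 := haZ x ⟨⟨fun j => (h1 j).trans (min_le_left _ _), h2⟩, h3⟩
    have h6 : dd x ≤ n * r := by
      refine (Finset.sum_le_sum fun j _ => h1 j).trans ?_
      rw [Finset.sum_const, Finset.card_univ, Fintype.card_fin, nsmul_eq_mul]
    have h7 : (n : ℝ) * r ≤ n * (a / (2 * (n + 1))) :=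
      mul_le_mul_of_nonneg_left (min_le_right _ _) (Nat.cast_nonneg n)
    have h8 : (n : ℝ) * (a / (2 * (n + 1))) < a := by
      rw [mul_div_assoc', div_lt_iff₀ (by positivity)]
      nlinarith [Nat.cast_nonneg (α := ℝ) n]
    linarith
  obtain ⟨κ1, hκ1, h1⟩ := (hcomp r (min_le_left _ _)).exists_forall_le' hf1c.continuousOn
    (a := 0) fun x hx => (hpos x hx).1
  obtain ⟨κ2, hκ2, h2⟩ := (hcomp r (min_le_left _ _)).exists_forall_le' hf2c.continuousOn
    (a := 0) fun x hx => (hpos x hx).2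
  refine ⟨r, B, min κ1 κ2, hr0, hB, lt_min hκ1 hκ2, fun x hx h0 => ⟨hbd x (fun j =>
    (hx j).trans (min_le_left _ _)) h0, (min_le_left _ _).trans (h1 x ⟨hx, h0⟩),
    (min_le_right _ _).trans (h2 x ⟨hx, h0⟩)⟩⟩

end est

end Pool.Agent.L7h9.WC
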