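import Pool.Agent.L7h9.VA.Gen
import Pool.Agent.L7h9.NC.Close
import Pool.Agent.L7h9.WC.Rel
set_option autoImplicit false

/-!
Tori in a variety near a corner of a nonlinear circuit, on which the regulator of the leading class
does not vanish.
-/

namespace Pool.Agent.L7h9.WC

open Pool.Agent.TH826.MK

open Pool.Agent.N65.TL

open Pool.Agent.L7h9.SU

open Pool.Agent.L7h9.VA (lif_basis exists_basis shv bind_shv_injective eval_shv eval_bind_shv
  isLow_shv isLow_uni det_ne_zero)

open Pool.Agent.L7h9.NC (lead_closeN exists_small' fderiv_eval)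

open Pool.Agent.L7h9.CP (Cov sub)

open Pool.Agent.Y797.TW (nex ex IsLow isLow_X)

section aux

theorem lw_smul {d : ℕ} {g : (Fin d → ℝ) → ℂ} (hg : Good g) (k : ℕ) (j : Fin d)
    (θ : Fin d → ℝ) :
    lw (fun θ => g ((k : ℝ) • θ)) j θ = k * lw g j ((k : ℝ) • θ) := by
  have h := lw_pul_cast (s := 0) (k := k) hg j θ
  have e : pul d 0 k θ = (k : ℝ) • θ := by
    funext i
    exact pul_apply (n := d) (s := 0) θ i
  rw [e] at h
  exact h

/-- The logarithmic derivative of a polynomial in a function. -/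
theorem lw_poly {d : ℕ} {y : (Fin d → ℝ) → ℂ} (hy : ContDiff ℝ 2 y) (F : Polynomial ℂ)
    (j : Fin d) (θ : Fin d → ℝ) :
    lw (fun θ => F.eval (y θ)) j θ =
      F.derivative.eval (y θ) * fderiv ℝ y θ (Pi.single j 1) / F.eval (y θ) := by
  unfold lw
  congr 1
  have h1 : HasFDerivAt y (fderiv ℝ y θ) θ := ((hy.differentiable (by norm_num)) θ).hasFDerivAt
  have h2 := ((F.hasDerivAt (y θ)).hasFDerivAt.restrictScalars ℝ).comp θ h1
  have h3 : fderiv ℝ (fun θ => F.eval (y θ)) θ = _ := h2.fderiv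
  rw [h3]
  simp [mul_comm]

end aux

section lead

variable {K : Type*} [Field K] [CharZero K] {A : Type*} [CommRing A] [Algebra K A] {m n : ℕ}

/-- The regulator of the leading class in terms of the functions. -/
theorem reg_lead {σ : K →+* ℂ} (C : Cov K A m) (wt : Fin m → ℕ) (D : Fin (n + 1) → Fin m)
    (γ : Torus A n) (hγ : ∀ θ (x : K), γ.e θ (algebraMap K A x) = σ x) :
    γ.reg (lead C wt (algebraMap K A) D) =
      ∑ i, ((wt (D i) * (C.F (D i)).natDegree : ℕ) : ℝ) *
        pairing (Function.update (fun i => γ.fn (C.f (D i) : A)) i fun _ => (2 : ℂ)) := by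
  unfold lead
  rw [map_sum]
  refine Finset.sum_congr rfl fun i _ => ?_
  have hq : (((wt (D i) * (C.F (D i)).natDegree : ℕ) : ℚ) : ℝ) =
      ((wt (D i) * (C.F (D i)).natDegree : ℕ) : ℝ) := Rat.cast_natCast _
  rw [map_smul, Rat.smul_def, hq]
  congr 1
  unfold sub
  rw [Torus.reg_symb]
  unfold Torus.pair
  congr 1
  funext l
  by_cases hl : l = i
  · subst hl
    rw [Function.update_self, Function.update_self]
    funext θ
    show γ.e θ (algebraMap K A 2) = 2
    rw [hγ, map_ofNat]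
  · rw [Function.update_of_ne hl, Function.update_of_ne hl]

end lead

section main

variable {K : Type*} [Field K] [CharZero K] {A : Type*} [CommRing A] [IsDomain A] [Algebra K A]
  [Algebra.FiniteType K A] {m n k : ℕ}

theorem exists_cornerN (σ : K →+* ℂ) {C : Cov K A m} (hC : C.Admissible (algebraMap K A))
    {wt : Fin m → ℕ} (hwt : ∀ e, 0 < wt e)
    {D : Fin (n + 1 + 1) → Fin m} {c : Fin k → Fin (n + 1 + 1) → K}
    {a : Fin k → Fin (n + 1 + 1) → ℕ} {kap : Fin k → ℕ} (hkap : ∀ i, 0 < kap i)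
    (hc : ∀ i e, ∃ j : ℕ, j ≠ 0 ∧ c i e ^ j = 1) (ha : ∀ i e, wt (D e) * a i e = kap i)
    {Q : MvPolynomial (Fin (n + 1 + 1)) K}
    (hk : ∀ μ, Q.coeff μ ≠ 0 → ∑ e, wt (D e) * μ e < ∑ i, kap i)
    {T0 : MvPolynomial (Fin (n + 1 + 1)) K} (hT0 : T0 ∣ rel c a Q)
    (hrel : MvPolynomial.eval₂ (algebraMap K A) (fun i => C.g (D i)) T0 = 0)
    (i0 : Fin (n + 1 + 1))
    (hind : AlgebraicIndependent K fun j => C.g (D (i0.succAbove j))) (β : Fin (n + 1) → ℂ)
    (hβ : ∀ j, ((C.F (D (i0.succAbove j))).map σ).eval (β j) = 0)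
    (hgen : ∀ x : ℂ, MvPolynomial.eval (i0.insertNth x β) (MvPolynomial.map σ T0) = 0 →
      MvPolynomial.eval (i0.insertNth x β)
        (MvPolynomial.pderiv i0 (MvPolynomial.map σ T0)) ≠ 0 ∧
      ((C.F (D i0)).map σ).eval x ≠ 0) :
    ∃ γ : Torus A (n + 1), (∀ θ (x : K), γ.e θ (algebraMap K A x) = σ x) ∧
      γ.reg (lead C wt (algebraMap K A) D) ≠ 0 := by
  classical
  obtain ⟨k', x, hx, hxg, halg⟩ := exists_basis hind
  obtain ⟨h, hh, hL⟩ := lif_basis σ hx halg
  -- the relation over the complex numbers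
  have hrσ : MvPolynomial.map σ (rel c a Q) =
      rel (fun i e => σ (c i e)) a (MvPolynomial.map σ Q) := by
    unfold rel
    rw [map_add, map_prod]
    congr 1
    refine Finset.prod_congr rfl fun i _ => ?_
    rw [map_sum]
    exact Finset.sum_congr rfl fun e _ => by
      rw [map_mul, MvPolynomial.map_C, map_pow, MvPolynomial.map_X]
  have hcσ : ∀ i e, ‖σ (c i e)‖ = 1 := by
    intro i e
    obtain ⟨j, hj, hj1⟩ := hc i e
    refine Complex.norm_eq_one_of_pow_eq_one (n := j) ?_ hj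
    rw [← map_pow, hj1, map_one]
  have hkσ : ∀ μ, (MvPolynomial.map σ Q).coeff μ ≠ 0 → ∑ e, wt (D e) * μ e < ∑ i, kap i := by
    intro μ hμ
    refine hk μ fun h0 => hμ ?_
    rw [MvPolynomial.coeff_map, h0, map_zero]
  set S : MvPolynomial (Fin (n + 1 + 1)) ℂ := MvPolynomial.map σ T0 with hS
  set F0 : Polynomial ℂ := (C.F (D i0)).map σ with hF0
  have hSdvd : S ∣ rel (fun i e => σ (c i e)) a (MvPolynomial.map σ Q) := by
    rw [← hrσ]
    exact map_dvd (MvPolynomial.map σ) hT0
  obtain ⟨r, B, κ, hr, hB, hκ, hbds⟩ := exists_bounds (S := S) (i0 := i0) (β := β) (by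
    obtain ⟨B, hB, hb⟩ := exists_bound (fun i e => σ (c i e)) hcσ (w := fun e => wt (D e)) hkap ha
      hkσ i0 β
    refine ⟨B, hB, fun x hx h0 => hb x hx ?_⟩
    obtain ⟨U, hU⟩ := hSdvd
    rw [hU, map_mul, h0, zero_mul]) F0 hgen
  -- the coordinates
  set cen : Fin (k' + (n + 1)) → ℂ := Fin.append (fun _ : Fin k' => (0 : ℂ)) β with hcen
  have hcenr : ∀ j, cen (Fin.natAdd k' j) = β j := fun j => Fin.append_right _ _ j
  set q : Option (Fin (n + 1)) ⊕ Fin (k' + (n + 1)) → MvPolynomial (Fin (k' + (n + 1))) ℂ :=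
    Sum.elim (fun e => e.elim (MvPolynomial.bind₁ (shv cen) (MvPolynomial.map σ h))
      fun j => Polynomial.aeval (shv cen (Fin.natAdd k' j))
        ((C.F (D (i0.succAbove j))).map σ)) fun l => MvPolynomial.X l with hq
  have hlow1 : ∀ j, ∃ t : ℕ, 0 < t ∧ IsLow (q (Sum.inl (some j)))
      (Finsupp.single (Fin.natAdd k' j) t) := by
    intro j
    exact isLow_shv cen (Fin.natAdd k' j) (F := (C.F (D (i0.succAbove j))).map σ)
      ((hC.monic _).map σ) (by rw [hcenr]; exact hβ j)
  have hlowh : ∃ α, IsLow (q (Sum.inl none)) α := by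
    refine Pool.Agent.Y797.TW.exists_low fun h0 => hh ?_
    have h1 : MvPolynomial.map σ h = 0 := bind_shv_injective cen (by rw [map_zero]; exact h0)
    exact MvPolynomial.map_injective σ σ.injective (by rw [map_zero]; exact h1)
  choose t ht hlowt using hlow1
  obtain ⟨α, hα⟩ := hlowh
  set al : Option (Fin (n + 1)) ⊕ Fin (k' + (n + 1)) → Fin (k' + (n + 1)) →₀ ℕ :=
    Sum.elim (fun e => e.elim α fun j => Finsupp.single (Fin.natAdd k' j) (t j))
      fun l => Finsupp.single l 1 with hal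
  have hlow : ∀ e, IsLow (q e) (al e) := by
    rintro ((_ | j) | l)
    · exact hα
    · exact hlowt j
    · exact isLow_X l
  set τ : Fin (k' + (n + 1)) → Fin (n + 1) := Fin.append (fun _ => 0) id with hτ
  have hτr : ∀ j : Fin (n + 1), τ (Fin.natAdd k' j) = j := fun j => Fin.append_right _ _ j
  obtain ⟨mm, hmm⟩ := exists_small' (M' := k' + (n + 1)) (by omega) q al hlow τ
  -- the winding numbers
  set P : Fin (n + 1) → Fin (n + 1) → ℝ := fun i j => ∑ l, if j = τ l then
    (nex mm (fun a => al (Sum.inl (some i)) a) l : ℝ) else 0 with hP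
  set R : Matrix (Fin (n + 1 + 1)) (Fin (n + 1 + 1)) ℝ := Matrix.of fun i =>
    Fin.cons ((wt (D i) * (C.F (D i)).natDegree : ℕ) : ℝ)
      ((i0.insertNth 0 P : Fin (n + 1 + 1) → Fin (n + 1) → ℝ) i) with hR
  have hR0 : ∀ i, R i 0 = ((wt (D i) * (C.F (D i)).natDegree : ℕ) : ℝ) := fun i => by
    rw [hR, Matrix.of_apply, Fin.cons_zero]
  have hRi0 : ∀ j : Fin (n + 1), R i0 j.succ = 0 := fun j => by
    rw [hR, Matrix.of_apply, Fin.cons_succ, Fin.insertNth_apply_same]
    rfl
  have hRs : ∀ i (j : Fin (n + 1)), R (i0.succAbove i) j.succ = P i j := fun i j => by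
    rw [hR, Matrix.of_apply, Fin.cons_succ, Fin.insertNth_apply_succAbove]
  have hnex1 : ∀ j l, nex mm (fun a => al (Sum.inl (some j)) a) l =
      t j * ex mm (Fin.natAdd k' j) l := by
    intro j l
    unfold nex
    have h1 : ∀ a, al (Sum.inl (some j)) a = Finsupp.single (Fin.natAdd k' j) (t j) a :=
      fun a => rfl
    rw [Finset.sum_eq_single (Fin.natAdd k' j)]
    · beta_reduce
      rw [h1, Finsupp.single_eq_same]
    · intro b _ hb
      beta_reduce
      rw [h1, Finsupp.single_eq_of_ne hb, zero_mul]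
    · intro hn
      exact absurd (Finset.mem_univ _) hn
  have hsum : ∀ (i : Fin (n + 1)) (j : Fin (n + 1)), P i j =
      t i * (ex mm (Fin.natAdd k' i) (Fin.natAdd k' j) : ℕ) := by
    intro i j
    simp only [hP]
    rw [Fin.sum_univ_add, Finset.sum_eq_zero, zero_add, Finset.sum_eq_single j]
    · rw [if_pos (hτr j).symm, hnex1]
      push_cast
      rfl
    · intro b _ hb
      rw [if_neg]
      rw [hτr]
      exact fun h => hb h.symm
    · intro hn
      exact absurd (Finset.mem_univ _) hn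
    · intro l _
      have h3 : ex mm (Fin.natAdd k' i : Fin (k' + (n + 1))) (Fin.castAdd (n + 1) l) = 0 := by
        unfold ex
        rw [if_neg, if_neg]
        · intro h
          have h4 : k' + (i : ℕ) < l := h
          have := l.isLt
          omega
        · intro h
          have h4 : k' + (i : ℕ) = l := congrArg Fin.val h
          have := l.isLt
          omega
      rw [hnex1, h3, mul_zero, Nat.cast_zero, ite_self]
  have hdet : R.det ≠ 0 := by
    refine det_ne_zero R i0 ?_ hRi0 ?_ ?_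
    · rw [hR0, Nat.cast_ne_zero]
      exact (Nat.mul_pos (hwt _) (hC.pos _)).ne'
    · intro i j hij
      rw [hRs, hsum]
      have h1 : ex mm (Fin.natAdd k' i : Fin (k' + (n + 1))) (Fin.natAdd k' j) = 0 := by
        unfold ex
        rw [if_neg, if_neg]
        · intro h
          have h4 : k' + (i : ℕ) < k' + j := h
          have h5 : (j : ℕ) < i := hij
          omega
        · intro h
          have h4 : k' + (i : ℕ) = k' + j := congrArg Fin.val h
          have h5 : (j : ℕ) < i := hij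
          omega
      rw [h1, Nat.cast_zero, mul_zero]
    · intro j
      rw [hRs, hsum]
      have h1 : ex mm (Fin.natAdd k' j : Fin (k' + (n + 1))) (Fin.natAdd k' j) = 1 := by
        unfold ex
        rw [if_pos rfl]
      rw [h1, Nat.cast_one, mul_one]
      exact_mod_cast (ht j).ne'
  have hpi := Real.pi_pos
  have hlog2 : 0 < Real.log 2 := Real.log_pos one_lt_two
  set ra : ℝ := (2 * Real.pi) ^ (n + 1) * R.det with hra
  have hra0 : ra ≠ 0 := mul_ne_zero (by positivity) hdet
  obtain ⟨δ1, hδ1, hclose⟩ := lead_closeN R (ε := |ra| / 2) (by positivity)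
  -- the constants
  have hbd1 : ∀ l, ∃ T : ℝ, ∀ y : Fin (n + 1 + 1) → ℂ, ‖y‖ ≤ B →
      ‖MvPolynomial.eval y (MvPolynomial.pderiv l S)‖ ≤ T := by
    intro l
    obtain ⟨T, hT⟩ := (isCompact_closedBall (0 : Fin (n + 1 + 1) → ℂ)
      B).exists_bound_of_continuousOn
      (MvPolynomial.continuous_eval (MvPolynomial.pderiv l S)).continuousOn
    exact ⟨T, fun y hy => hT y (by rwa [mem_closedBall_zero_iff])⟩
  choose T1 hT1 using hbd1
  obtain ⟨T2, hT2⟩ := (isCompact_closedBall (0 : ℂ) B).exists_bound_of_continuousOn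
    F0.derivative.continuous.continuousOn
  set CR : ℝ := ∑ l, |T1 l| with hCR
  have hCR0 : 0 ≤ CR := Finset.sum_nonneg fun _ _ => abs_nonneg _
  have hCRle : ∀ l (y : Fin (n + 1 + 1) → ℂ), ‖y‖ ≤ B →
      ‖MvPolynomial.eval y (MvPolynomial.pderiv l S)‖ ≤ CR := fun l y hy =>
    (hT1 l y hy).trans ((le_abs_self _).trans (Finset.single_le_sum (f := fun l => |T1 l|)
      (fun _ _ => abs_nonneg _) (Finset.mem_univ l)))
  set CF : ℝ := |T2| with hCF
  have hCF0 : 0 ≤ CF := abs_nonneg _
  set wd : Fin (k' + (n + 1)) → Fin (n + 1) → ℂ := fun l j => 2 * Real.pi * Complex.I *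
    (∑ l', if j = τ l' then (nex mm (fun i => al (Sum.inr l) i) l' : ℂ) else 0) with hwd
  set C0 : ℝ := ∑ l, ∑ j, ‖wd l j‖ with hC0
  have hC00 : 0 ≤ C0 := Finset.sum_nonneg fun _ _ => Finset.sum_nonneg fun _ _ => norm_nonneg _
  have hC0le : ∀ l j, ‖wd l j‖ ≤ C0 := fun l j =>
    (Finset.single_le_sum (f := fun j => ‖wd l j‖) (fun _ _ => norm_nonneg _)
      (Finset.mem_univ j)).trans (Finset.single_le_sum (f := fun l => ∑ j, ‖wd l j‖)
      (fun _ _ => Finset.sum_nonneg fun _ _ => norm_nonneg _) (Finset.mem_univ l))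
  set T : ℝ := CF * ((n + 1 : ℕ) * (CR * (C0 + 1)) / κ) / κ with hT
  have hT0 : 0 ≤ T := by positivity
  set δ : ℝ := min (min δ1 r) (min 1 (δ1 / (T + 1))) with hδ
  have hδ0 : 0 < δ := by
    refine lt_min (lt_min hδ1 hr) (lt_min one_pos (by positivity))
  have hδδ1 : δ ≤ δ1 := (min_le_left _ _).trans (min_le_left _ _)
  have hδr : δ ≤ r := (min_le_left _ _).trans (min_le_right _ _)
  have hδ11 : δ ≤ 1 := (min_le_right _ _).trans (min_le_left _ _)
  have hδT : δ * T ≤ δ1 := by
    have h1 : δ ≤ δ1 / (T + 1) := (min_le_right _ _).trans (min_le_right _ _)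
    rw [le_div_iff₀ (by positivity)] at h1
    nlinarith
  obtain ⟨w, hwc, hwp, hwδ, hw⟩ := hmm δ hδ0
  -- the torus in the affine space
  set X : (Fin (n + 1) → ℝ) → Fin (k' + (n + 1)) → ℂ := fun θ l => w θ l + cen l with hX
  have hXc : ContDiff ℝ 2 X := contDiff_pi.2 fun l =>
    (contDiff_pi.1 hwc l).add contDiff_const
  have hXp : ∀ θ i, X (θ + Pi.single i 1) = X θ := fun θ i => by
    simp only [hX]
    rw [hwp]
  obtain ⟨N, γ, hN, hγ⟩ := hL (n + 1) X hXc hXp fun θ => by
    have h1 := (hw (Sum.inl none)).1.ne_zero θ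
    have h2 : MvPolynomial.eval (w θ) (q (Sum.inl none)) = MvPolynomial.eval₂ σ (X θ) h := by
      show MvPolynomial.eval (w θ) (MvPolynomial.bind₁ (shv cen) (MvPolynomial.map σ h)) = _
      rw [eval_bind_shv, MvPolynomial.eval_map]
    rwa [h2] at h1
  have hNR : (0 : ℝ) < N := by exact_mod_cast hN
  have hγσ : ∀ θ (x : K), γ.e θ (algebraMap K A x) = σ x := by
    intro θ y
    have h1 := hγ θ (MvPolynomial.C y)
    rw [MvPolynomial.eval₂_C] at h1
    rw [← h1]
    show _ = γ.e θ (MvPolynomial.aeval x (MvPolynomial.C y))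
    rw [MvPolynomial.aeval_C]
  have hγx : ∀ θ l, γ.e θ (x l) = w ((N : ℝ) • θ) l + cen l := by
    intro θ l
    have h1 := hγ θ (MvPolynomial.X l)
    rw [MvPolynomial.eval₂_X] at h1
    have h2 : γ.e θ (MvPolynomial.aeval (R := K) x (MvPolynomial.X l)) = X ((N : ℝ) • θ) l := h1
    rw [MvPolynomial.aeval_X] at h2
    exact h2
  -- the values of the functions `g`
  set G : (Fin (n + 1) → ℝ) → Fin (n + 1 + 1) → ℂ := fun θ i => γ.e θ (C.g (D i)) with hG
  have hGc : ContDiff ℝ 2 G := contDiff_pi.2 fun i => γ.smooth _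
  have hG1 : ∀ θ j, G θ (i0.succAbove j) = w ((N : ℝ) • θ) (Fin.natAdd k' j) + β j := by
    intro θ j
    simp only [hG]
    rw [← hxg, hγx, hcenr]
  have hGS : ∀ θ, MvPolynomial.eval (G θ) S = 0 := by
    intro θ
    have h1 := congrArg (γ.e θ) hrel
    rw [map_zero, MvPolynomial.eval₂_comp_left] at h1
    rw [hS, MvPolynomial.eval_map, ← h1]
    have h2 : (γ.e θ).comp (algebraMap K A) = σ := RingHom.ext fun y => hγσ θ y
    rw [h2]
    rfl
  have hGb : ∀ θ, ‖G θ‖ ≤ B ∧ κ ≤ ‖MvPolynomial.eval (G θ) (MvPolynomial.pderiv i0 S)‖ ∧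
      κ ≤ ‖F0.eval (G θ i0)‖ := fun θ => hbds (G θ) (fun j => by
    rw [hG1, add_sub_cancel_right]
    exact (hwδ _ _).trans hδr) (hGS θ)
  -- the functions `f`
  set H : Fin (n + 1 + 1) → (Fin (n + 1) → ℝ) → ℂ := fun i => γ.fn (C.f (D i) : A) with hH
  have hHG : ∀ i θ, H i θ = ((C.F (D i)).map σ).eval (G θ i) := by
    intro i θ
    show γ.e θ (C.f (D i) : A) = _
    rw [hC.val, Polynomial.hom_eval₂, Polynomial.eval_map]
    congr 1
    exact RingHom.ext fun y => hγσ θ y
  have hHg : ∀ i, Good (H i) := fun i => γ.good _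
  have hHp : ∀ i, Per (H i) := fun i => γ.per _
  have hHq : ∀ j, H (i0.succAbove j) = fun θ =>
      MvPolynomial.eval (w ((N : ℝ) • θ)) (q (Sum.inl (some j))) := by
    intro j
    funext θ
    rw [hHG, hG1]
    show _ = MvPolynomial.eval (w ((N : ℝ) • θ)) (Polynomial.aeval (shv cen (Fin.natAdd k' j))
      ((C.F (D (i0.succAbove j))).map σ))
    rw [Polynomial.aeval_def, Polynomial.hom_eval₂, eval_shv, hcenr, Polynomial.eval]
    congr 1
    exact RingHom.ext fun y => (MvPolynomial.eval_C y).symm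
  have hlwi0 : ∀ j θ, ‖lw (H i0) j θ‖ ≤ N * δ1 := by
    intro j θ
    have e1 : H i0 = fun θ => F0.eval (G θ i0) := funext fun θ => hHG i0 θ
    rw [e1, lw_poly (contDiff_pi.1 hGc i0)]
    obtain ⟨b1, b2, b3⟩ := hGb θ
    -- the derivatives of the other functions
    have hder : ∀ j', ‖fderiv ℝ (fun θ => G θ (i0.succAbove j')) θ (Pi.single j 1)‖ ≤
        N * (δ * (C0 + 1)) := by
      intro j'
      have hwg : Good fun θ => w θ (Fin.natAdd k' j') := by
        have := (hw (Sum.inr (Fin.natAdd k' j'))).1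
        have e2 : (fun θ => MvPolynomial.eval (w θ) (q (Sum.inr (Fin.natAdd k' j')))) =
            fun θ => w θ (Fin.natAdd k' j') := by
          funext θ
          exact MvPolynomial.eval_X _
        rwa [e2] at this
      have hwl := (hw (Sum.inr (Fin.natAdd k' j'))).2 j ((N : ℝ) • θ)
      have e2 : (fun θ => MvPolynomial.eval (w θ) (q (Sum.inr (Fin.natAdd k' j')))) =
          fun θ => w θ (Fin.natAdd k' j') := by
        funext θ
        exact MvPolynomial.eval_X _
      rw [e2] at hwl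
      have hwl' : ‖lw (fun θ => w θ (Fin.natAdd k' j')) j ((N : ℝ) • θ)‖ ≤ C0 + 1 := by
        have h1 := norm_le_norm_add_norm_sub' (lw (fun θ => w θ (Fin.natAdd k' j')) j
          ((N : ℝ) • θ)) (wd (Fin.natAdd k' j') j)
        have h2 := hC0le (Fin.natAdd k' j') j
        have h3 : ‖lw (fun θ => w θ (Fin.natAdd k' j')) j ((N : ℝ) • θ) -
          wd (Fin.natAdd k' j') j‖ ≤ δ := hwl
        linarith
      have e3 : (fun θ => G θ (i0.succAbove j')) =
          fun θ => (fun θ => w θ (Fin.natAdd k' j')) ((N : ℝ) • θ) + β j' := by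
        funext θ
        rw [hG1]
      have hsm : Good fun θ => (fun θ => w θ (Fin.natAdd k' j')) ((N : ℝ) • θ) :=
        ⟨hwg.smooth.comp (contDiff_const_smul _), fun θ => hwg.ne_zero _⟩
      have h4 := lw_smul hwg N j θ
      have e4 : fderiv ℝ (fun θ => (fun θ => w θ (Fin.natAdd k' j')) ((N : ℝ) • θ)) θ
          (Pi.single j 1) = w ((N : ℝ) • θ) (Fin.natAdd k' j') *
            (N * lw (fun θ => w θ (Fin.natAdd k' j')) j ((N : ℝ) • θ)) := by
        rw [← h4]
        unfold lw
        rw [mul_div_cancel₀ _ (hsm.ne_zero θ)]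
      rw [e3, fderiv_add_const, e4, norm_mul, norm_mul, Complex.norm_natCast]
      calc ‖w ((N : ℝ) • θ) (Fin.natAdd k' j')‖ *
            (N * ‖lw (fun θ => w θ (Fin.natAdd k' j')) j ((N : ℝ) • θ)‖)
          ≤ δ * (N * (C0 + 1)) := mul_le_mul (hwδ _ _)
            (mul_le_mul_of_nonneg_left hwl' hNR.le) (by positivity) hδ0.le
        _ = N * (δ * (C0 + 1)) := by ring
    -- the derivative of the function at the place `i0`
    have hzero : ∑ l, MvPolynomial.eval (G θ) (MvPolynomial.pderiv l S) *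
        fderiv ℝ (fun θ => G θ l) θ (Pi.single j 1) = 0 := by
      rw [← fderiv_eval hGc]
      have e2 : (fun θ => MvPolynomial.eval (G θ) S) = fun _ => (0 : ℂ) := funext hGS
      rw [e2]
      simp
    rw [Fin.sum_univ_succAbove _ i0] at hzero
    have hy : ‖fderiv ℝ (fun θ => G θ i0) θ (Pi.single j 1)‖ ≤
        (n + 1 : ℕ) * (CR * (N * (δ * (C0 + 1)))) / κ := by
      rw [le_div_iff₀ hκ]
      have h1 := eq_neg_of_add_eq_zero_left hzero
      have h2 := congrArg (fun z : ℂ => ‖z‖) h1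
      simp only [norm_neg, norm_mul] at h2
      calc ‖fderiv ℝ (fun θ => G θ i0) θ (Pi.single j 1)‖ * κ
          ≤ ‖fderiv ℝ (fun θ => G θ i0) θ (Pi.single j 1)‖ *
            ‖MvPolynomial.eval (G θ) (MvPolynomial.pderiv i0 S)‖ :=
            mul_le_mul_of_nonneg_left b2 (norm_nonneg _)
        _ = _ := mul_comm _ _
        _ = _ := h2
        _ ≤ ∑ j' : Fin (n + 1), CR * (N * (δ * (C0 + 1))) := by
            refine (norm_sum_le _ _).trans (Finset.sum_le_sum fun j' _ => ?_)
            rw [norm_mul]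
            exact mul_le_mul (hCRle _ _ b1) (hder j') (norm_nonneg _) hCR0
        _ = (n + 1 : ℕ) * (CR * (N * (δ * (C0 + 1)))) := by
            rw [Finset.sum_const, Finset.card_univ, Fintype.card_fin, nsmul_eq_mul]
    have hd2 : ‖F0.derivative.eval (G θ i0)‖ ≤ CF :=
      (hT2 _ (by
        rw [mem_closedBall_zero_iff]
        exact (norm_le_pi_norm _ i0).trans b1)).trans (le_abs_self _)
    rw [norm_div, norm_mul]
    have hpos : 0 < ‖F0.eval (G θ i0)‖ := hκ.trans_le b3
    calc ‖F0.derivative.eval (G θ i0)‖ * ‖fderiv ℝ (fun θ => G θ i0) θ (Pi.single j 1)‖ /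
          ‖F0.eval (G θ i0)‖
        ≤ CF * ((n + 1 : ℕ) * (CR * (N * (δ * (C0 + 1)))) / κ) / κ := by
          refine div_le_div₀ (by positivity) (mul_le_mul hd2 hy (norm_nonneg _) hCF0) hκ b3
      _ = N * (δ * T) := by
          rw [hT]
          field_simp
      _ ≤ N * δ1 := mul_le_mul_of_nonneg_left hδT hNR.le
  have hcl := hclose N hN H hHg hHp fun l j θ => by
    rcases Fin.eq_self_or_eq_succAbove i0 l with rfl | ⟨j', rfl⟩
    · rw [hRi0, Complex.ofReal_zero, mul_zero, mul_zero, sub_zero]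
      exact hlwi0 j θ
    · have h1 := (hw (Sum.inl (some j'))).2 j ((N : ℝ) • θ)
      rw [hHq, lw_smul (hw (Sum.inl (some j'))).1, ← mul_sub, norm_mul, Complex.norm_natCast]
      refine mul_le_mul_of_nonneg_left ?_ hNR.le
      have h2 : ((R (i0.succAbove j') j.succ : ℝ) : ℂ) = ∑ l', if j = τ l' then
          (nex mm (fun i => al (Sum.inl (some j')) i) l' : ℂ) else 0 := by
        rw [hRs]
        simp only [hP]
        rw [Complex.ofReal_sum]
        refine Finset.sum_congr rfl fun l' _ => ?_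
        split_ifs <;> simp
      rw [h2]
      exact h1.trans hδδ1
  have e2 : γ.reg (lead C wt (algebraMap K A) D) = ∑ i, R i 0 *
      pairing (Function.update H i fun _ => (2 : ℂ)) := by
    rw [reg_lead C wt D γ hγσ]
    refine Finset.sum_congr rfl fun i _ => ?_
    rw [hR0]
  refine ⟨γ, hγσ, ?_⟩
  rw [e2]
  intro h0
  rw [h0, zero_div, zero_div, zero_sub, abs_neg] at hcl
  have h1 : 0 < |ra| := abs_pos.2 hra0
  linarith

end main

end Pool.Agent.L7h9.WC
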