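import Pool.Agent.L7h9.CP.Ring
set_option autoImplicit false

/-!
Coverings `W_e(z_e) = λ ^ (w_e deg F_e) F_e(g_e)` with weights `w_e`.
-/

namespace Pool.Agent.L7h9.WC

open Pool.Agent.TH826.MK

open Pool.Agent.N65.TL

open Pool.Agent.L7h9.CP (Cov CRing instCRing cbase cz sub)

section cov

variable {K A : Type*} [Field K] [CommRing A] {m n : ℕ}

/-- The right hand sides `λ ^ (w_e deg F_e) f_e` of the equations. -/
noncomputable def rhs (C : Cov K A m) (w : Fin m → ℕ) (ι : K →+* A) (lam : K) (e : Fin m) : A :=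
  ι lam ^ (w e * (C.F e).natDegree) * C.f e

/-- The coordinate ring of the covering `W_e(z_e) = λ ^ (w_e deg F_e) f_e`. -/
def XR (C : Cov K A m) (w : Fin m → ℕ) (ι : K →+* A) (lam : K) : Type _ :=
  CRing ι C.W (rhs C w ι lam)

noncomputable instance instXR (C : Cov K A m) (w : Fin m → ℕ) (ι : K →+* A) (lam : K) :
    CommRing (XR C w ι lam) :=
  show CommRing (CRing ι C.W (rhs C w ι lam)) from inferInstance

variable (C : Cov K A m) (w : Fin m → ℕ) (ι : K →+* A) (lam : K)

/-- The functions in `A`. -/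
noncomputable def xbase : A →+* XR C w ι lam := cbase ι C.W (rhs C w ι lam)

/-- The units `z_e`. -/
noncomputable def xz (e : Fin m) : (XR C w ι lam)ˣ := cz ι C.W (rhs C w ι lam) e

/-- The class `{z_e : e ∈ D}`. -/
noncomputable def sym (D : Fin (n + 1) → Fin m) : KQ (XR C w ι lam) (n + 1) :=
  symb fun i => xz C w ι lam (D i)

/-- The class `∑_i w_(D i) deg F_(D i) · {f_e : e ∈ D, with 2 in the place i}`. -/
noncomputable def lead [CharZero K] (D : Fin (n + 1) → Fin m) : KQ A (n + 1) :=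
  ∑ i, ((w (D i) * (C.F (D i)).natDegree : ℕ) : ℚ) • sub C ι D i

end cov

section rel

variable {K : Type*} [Field K] {n k : ℕ}

/-- The polynomial `∏_{i < k} (∑_e c_{i,e} X_e ^ a_{i,e}) + Q(X_0, ..., X_n)`. -/
noncomputable def rel (c : Fin k → Fin (n + 1) → K) (a : Fin k → Fin (n + 1) → ℕ)
    (Q : MvPolynomial (Fin (n + 1)) K) : MvPolynomial (Fin (n + 1)) K :=
  (∏ i, ∑ e, MvPolynomial.C (c i e) * MvPolynomial.X e ^ a i e) + Q

end rel

end Pool.Agent.L7h9.WC
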