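import Pool.Agent.L7h9.WC.Corner
set_option autoImplicit false

/-!
The leading class of a nonlinear circuit has a nonzero regulator on some torus, for functions in an
arbitrary finitely generated algebra.
-/

namespace Pool.Agent.L7h9.WC

open Pool.Agent.TH826.MK

open Pool.Agent.N65.TL

open Pool.Agent.L7h9.SU

open Pool.Agent.L7h9.VA (exists_prime)

open Pool.Agent.L7h9.CP (Cov sub)

section slice

variable {K : Type*} [Field K] {n : ℕ}

/-- The polynomial `T(β_0, ..., X, ..., β_n)` in one variable `X`, which is in the place `i0`. -/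
noncomputable def slice (i0 : Fin (n + 1)) (β : Fin n → AlgebraicClosure K)
    (T : MvPolynomial (Fin (n + 1)) K) : Polynomial (AlgebraicClosure K) :=
  MvPolynomial.aeval
    (i0.insertNth Polynomial.X (fun j => Polynomial.C (β j)) :
      Fin (n + 1) → Polynomial (AlgebraicClosure K)) T

theorem slice_derivative (i0 : Fin (n + 1)) (β : Fin n → AlgebraicClosure K)
    (T : MvPolynomial (Fin (n + 1)) K) :
    (slice i0 β T).derivative = slice i0 β (MvPolynomial.pderiv i0 T) := by
  unfold slice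
  induction T using MvPolynomial.induction_on with
  | C x =>
    rw [MvPolynomial.pderiv_C, map_zero, MvPolynomial.aeval_C, Polynomial.algebraMap_apply,
      Polynomial.derivative_C]
  | add p q hp hq => rw [map_add, map_add, map_add, map_add, hp, hq]
  | mul_X p l hp =>
    rw [map_mul, Polynomial.derivative_mul, hp, MvPolynomial.pderiv_mul, map_add, map_mul,
      map_mul, MvPolynomial.aeval_X, MvPolynomial.pderiv_X]
    congr 1
    congr 1
    rcases Fin.eq_self_or_eq_succAbove i0 l with rfl | ⟨j, rfl⟩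
    · rw [Fin.insertNth_apply_same, Polynomial.derivative_X, Pi.single_eq_same, map_one]
    · rw [Fin.insertNth_apply_succAbove, Polynomial.derivative_C,
        Pi.single_eq_of_ne (Fin.succAbove_ne i0 j), map_zero]

theorem eval_slice {σ : K →+* ℂ} {τ : AlgebraicClosure K →+* ℂ}
    (hτ : ∀ x, τ (algebraMap K (AlgebraicClosure K) x) = σ x) (i0 : Fin (n + 1))
    (β : Fin n → AlgebraicClosure K) (T : MvPolynomial (Fin (n + 1)) K) (x : ℂ) :
    ((slice i0 β T).map τ).eval x =
      MvPolynomial.eval (i0.insertNth x fun j => τ (β j)) (MvPolynomial.map σ T) := by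
  unfold slice
  induction T using MvPolynomial.induction_on with
  | C y =>
    rw [MvPolynomial.aeval_C, Polynomial.algebraMap_apply,
      Polynomial.map_C, Polynomial.eval_C, MvPolynomial.map_C, MvPolynomial.eval_C, hτ]
  | add p q hp hq =>
    rw [map_add, Polynomial.map_add, Polynomial.eval_add, hp, hq, map_add, map_add]
  | mul_X p l hp =>
    rw [map_mul, Polynomial.map_mul, Polynomial.eval_mul, hp, map_mul, map_mul,
      MvPolynomial.aeval_X, MvPolynomial.map_X, MvPolynomial.eval_X]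
    congr 1
    rcases Fin.eq_self_or_eq_succAbove i0 l with rfl | ⟨j, rfl⟩
    · rw [Fin.insertNth_apply_same, Fin.insertNth_apply_same, Polynomial.map_X,
        Polynomial.eval_X]
    · rw [Fin.insertNth_apply_succAbove, Fin.insertNth_apply_succAbove, Polynomial.map_C,
        Polynomial.eval_C]

end slice

section main

variable {K : Type*} [Field K] [CharZero K] {A : Type*} [CommRing A] [Algebra K A] {m n k : ℕ}

theorem exists_corner' [Algebra.FiniteType K A] (σ : K →+* ℂ) {C : Cov K A m}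
    (hC : C.Admissible (algebraMap K A))
    {wt : Fin m → ℕ} (hwt : ∀ e, 0 < wt e)
    {D : Fin (n + 1 + 1) → Fin m} {c : Fin k → Fin (n + 1 + 1) → K}
    {a : Fin k → Fin (n + 1 + 1) → ℕ} {kap : Fin k → ℕ} (hkap : ∀ i, 0 < kap i)
    (hc : ∀ i e, ∃ j : ℕ, j ≠ 0 ∧ c i e ^ j = 1) (ha : ∀ i e, wt (D e) * a i e = kap i)
    {Q : MvPolynomial (Fin (n + 1 + 1)) K}
    (hk : ∀ μ, Q.coeff μ ≠ 0 → ∑ e, wt (D e) * μ e < ∑ i, kap i)
    {T0 : MvPolynomial (Fin (n + 1 + 1)) K} (hT0 : T0 ∣ rel c a Q)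
    (hrel : MvPolynomial.eval₂ (algebraMap K A) (fun i => C.g (D i)) T0 = 0)
    (i0 : Fin (n + 1 + 1))
    (hind : AlgebraicIndependent K fun j => C.g (D (i0.succAbove j))) (β : Fin (n + 1) → ℂ)
    (hβ : ∀ j, ((C.F (D (i0.succAbove j))).map σ).eval (β j) = 0)
    (hgen : ∀ x : ℂ, MvPolynomial.eval (i0.insertNth x β) (MvPolynomial.map σ T0) = 0 →
      MvPolynomial.eval (i0.insertNth x β)
        (MvPolynomial.pderiv i0 (MvPolynomial.map σ T0)) ≠ 0 ∧
      ((C.F (D i0)).map σ).eval x ≠ 0) :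
    ∃ γ : Torus A (n + 1), (∀ θ (x : K), γ.e θ (algebraMap K A x) = σ x) ∧
      γ.reg (lead C wt (algebraMap K A) D) ≠ 0 := by
  obtain ⟨p, hp, hgp⟩ := exists_prime hind
  set π : A →+* A ⧸ p := Ideal.Quotient.mk p with hπ
  have hπK : ∀ x : K, π (algebraMap K A x) = algebraMap K (A ⧸ p) x := fun x => rfl
  have hcomp : π.comp (algebraMap K A) = algebraMap K (A ⧸ p) := RingHom.ext hπK
  set C' : Cov K (A ⧸ p) m :=
    ⟨fun e => π (C.g e), C.F, C.W, fun e => Units.map π.toMonoidHom (C.f e)⟩ with hC'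
  have hadm : C'.Admissible (algebraMap K (A ⧸ p)) := by
    refine ⟨fun e => ?_, hC.monic, hC.pos, hC.integral, hC.integralW, hC.interior, hC.ends⟩
    show π (C.f e : A) = (C.F e).eval₂ (algebraMap K (A ⧸ p)) (π (C.g e))
    rw [hC.val, Polynomial.hom_eval₂, hcomp]
  obtain ⟨γ, hγ, hne⟩ := exists_cornerN σ hadm hwt (D := D) hkap hc ha hk hT0 (by
      have h1 := congrArg π hrel
      rw [map_zero, MvPolynomial.eval₂_comp_left, hcomp] at h1
      exact h1) i0 hgp β hβ hgen
  set Γ : Torus A (n + 1) := ⟨fun θ => (γ.e θ).comp π, fun b => γ.smooth (π b),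
    fun θ i => by rw [γ.periodic]⟩ with hΓ
  have hΓK : ∀ θ (x : K), Γ.e θ (algebraMap K A x) = σ x := fun θ x => by
    show γ.e θ (π (algebraMap K A x)) = σ x
    rw [hπK, hγ]
  refine ⟨Γ, hΓK, ?_⟩
  have h1 : Γ.reg (lead C wt (algebraMap K A) D) =
      γ.reg (lead C' wt (algebraMap K (A ⧸ p)) D) := by
    rw [reg_lead C wt D Γ hΓK, reg_lead C' wt D γ hγ]
    rfl
  rw [h1]
  exact hne

/-- The leading class of a circuit has nonzero regulators. -/
theorem exists_period [Algebra.FiniteType K A] (σ : K →+* ℂ) {C : Cov K A m}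
    (hC : C.Admissible (algebraMap K A))
    {wt : Fin m → ℕ} (hwt : ∀ e, 0 < wt e)
    {D : Fin (n + 1 + 1) → Fin m} {c : Fin k → Fin (n + 1 + 1) → K}
    {a : Fin k → Fin (n + 1 + 1) → ℕ} {kap : Fin k → ℕ} (hkap : ∀ i, 0 < kap i)
    (hc : ∀ i e, ∃ j : ℕ, j ≠ 0 ∧ c i e ^ j = 1) (ha : ∀ i e, wt (D e) * a i e = kap i)
    {Q : MvPolynomial (Fin (n + 1 + 1)) K}
    (hk : ∀ μ, Q.coeff μ ≠ 0 → ∑ e, wt (D e) * μ e < ∑ i, kap i)
    {T0 : MvPolynomial (Fin (n + 1 + 1)) K} (hT0 : T0 ∣ rel c a Q)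
    (hrel : MvPolynomial.aeval (fun i => C.g (D i)) T0 = 0)
    (i0 : Fin (n + 1 + 1))
    (hind : AlgebraicIndependent K fun j => C.g (D (i0.succAbove j)))
    (β : Fin (n + 1) → AlgebraicClosure K)
    (hβ : ∀ j, Polynomial.aeval (β j) (C.F (D (i0.succAbove j))) = 0)
    (hsep : (slice i0 β T0).Separable)
    (hcop : IsCoprime (slice i0 β T0)
      ((C.F (D i0)).map (algebraMap K (AlgebraicClosure K)))) :
    ∃ γ : Torus A (n + 1), (∀ θ (x : K), γ.e θ (algebraMap K A x) = σ x) ∧
      γ.reg (lead C wt (algebraMap K A) D) ≠ 0 := by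
  obtain ⟨τ, hτ⟩ : ∃ τ : AlgebraicClosure K →+* ℂ,
      ∀ x, τ (algebraMap K (AlgebraicClosure K) x) = σ x := by
    let _ := σ.toAlgebra
    exact ⟨(IsAlgClosed.lift : AlgebraicClosure K →ₐ[K] ℂ).toRingHom, fun x =>
      (IsAlgClosed.lift : AlgebraicClosure K →ₐ[K] ℂ).commutes x⟩
  have hcompτ : τ.comp (algebraMap K (AlgebraicClosure K)) = σ := RingHom.ext hτ
  refine exists_corner' σ hC hwt hkap hc ha hk hT0 hrel i0 hind (fun j => τ (β j))
    (fun j => ?_) fun x hx => ⟨fun h0 => ?_, fun h0 => ?_⟩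
  · have h1 := congrArg τ (hβ j)
    rw [map_zero, Polynomial.aeval_def, Polynomial.hom_eval₂, hcompτ] at h1
    rw [Polynomial.eval_map]
    exact h1
  · rw [← eval_slice hτ] at hx
    rw [MvPolynomial.pderiv_map, ← eval_slice hτ, ← slice_derivative] at h0
    obtain ⟨u, v, huv⟩ := hsep
    have h1 := congrArg (fun P : Polynomial (AlgebraicClosure K) => (P.map τ).eval x) huv
    simp only [Polynomial.map_add, Polynomial.map_mul, Polynomial.eval_add, Polynomial.eval_mul,
      Polynomial.map_one, Polynomial.eval_one] at h1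
    rw [hx, h0, mul_zero, mul_zero, add_zero] at h1
    exact zero_ne_one h1
  · rw [← eval_slice hτ] at hx
    obtain ⟨u, v, huv⟩ := hcop
    have h1 := congrArg (fun P : Polynomial (AlgebraicClosure K) => (P.map τ).eval x) huv
    simp only [Polynomial.map_add, Polynomial.map_mul, Polynomial.eval_add, Polynomial.eval_mul,
      Polynomial.map_one, Polynomial.eval_one, Polynomial.map_map, hcompτ] at h1
    rw [hx, h0, mul_zero, mul_zero, add_zero] at h1
    exact zero_ne_one h1

end main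

end Pool.Agent.L7h9.WC
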