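import Pool.Agent.L7h9.CP.Tor
import Pool.Agent.L7h9.WC.Defs
set_option autoImplicit false

/-!
Tori in the coverings `W_e(z_e) = λ ^ (w_e deg F_e) f_e`, for large `λ`.
-/

namespace Pool.Agent.L7h9.WC

open Pool.Agent.TH826.MK

open Pool.Agent.N65.TL

open Pool.Agent.L7h9.SU

open Pool.Agent.L7h9.LT (lval lder)

open Pool.Agent.L7h9.CP (Cov CRing instCRing cbase cz sub vu mkC mkC_base mkC_z mkC_reg kap asyC
  exists_Z1 exists_end exists_minor prod_indep)

section exist

variable {K A : Type*} [Field K] [CharZero K] [CommRing A] {m n : ℕ}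

theorem exists_cov_torus (σ : K →+* ℂ) {C : Cov K A m} {ι : K →+* A} (hC : C.Admissible ι)
    {w : Fin m → ℕ} (hw : ∀ e, 0 < w e) {c : Fin m → ℤ} {v : Fin m → Fin 1 → ℤ} {k : ℕ} (hk0 : 0 < k) (hk : ∀ e, (k : ℤ) = c e * v e 0)
    (hv : ∀ e, (C.W e).coeff (v e) ≠ 0)
    (hmax : ∀ e p, (C.W e).coeff p ≠ 0 → p ≠ v e → c e * p 0 < c e * v e 0)
    (γ : Torus A n) (hγ : ∀ θ x, γ.e θ (ι x) = σ x) {κ : Type*} [Finite κ]
    (D : κ → Fin (n + 1) → Fin m) {ε : ℝ} (hε : 0 < ε) :
    ∃ Λ0 : ℝ, 1 < Λ0 ∧ ∀ lam : K, Λ0 ≤ ‖σ lam‖ → ∃ Γ : Torus (XR C w ι lam) n,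
      (∀ θ x, Γ.e θ (xbase C w ι lam (ι x)) = σ x) ∧
      (∀ θ e, ∃ i, lder σ (C.W e) (fun _ : Fin 1 =>
        Γ.e θ (xz C w ι lam e : XR C w ι lam)) i ≠ 0) ∧
      ∀ k', |Γ.reg (sym C w ι lam (D k')) / Real.log ‖σ lam‖ -
        kap c k (D k') * γ.reg (lead C w ι (D k'))| ≤ ε := by
  classical
  have := Fintype.ofFinite κ
  set d : Fin m → ℕ := fun e => w e * (C.F e).natDegree with hd
  choose δ hδ hasy using fun k' : κ => asyC (k := k) hk0
    (H := fun i => γ.fn (C.f (D k' i) : A)) (fun i => γ.good _) (fun i => γ.per _)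
    (fun i => (c (D k' i) : ℝ)) (fun i => ((d (D k' i) : ℝ) / k)) hε
  obtain ⟨δ0, hδ0, hδ0le⟩ : ∃ δ0 : ℝ, 0 < δ0 ∧ ∀ k', δ0 ≤ δ k' := by
    have hs0 : 0 ≤ ∑ a, (δ a)⁻¹ := Finset.sum_nonneg fun a _ => (inv_pos.2 (hδ a)).le
    refine ⟨(1 + ∑ a, (δ a)⁻¹)⁻¹, inv_pos.2 (by linarith), fun a => ?_⟩
    rw [inv_le_comm₀ (by linarith) (hδ a)]
    have := Finset.single_le_sum (f := fun a => (δ a)⁻¹) (fun a _ => (inv_pos.2 (hδ a)).le)
      (Finset.mem_univ a)
    linarith
  choose Λ1 hΛ1 hZ1 using fun e : Fin m => exists_Z1 σ γ (C.f e) (hv e) (hmax e)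
    hk0 (hk e) (Nat.mul_pos (hw e) (hC.pos e)) hδ0
  have hsum : 0 ≤ ∑ e, |Λ1 e| := Finset.sum_nonneg fun _ _ => abs_nonneg _
  refine ⟨2 + ∑ e, |Λ1 e|, by linarith, fun lam hlam => ?_⟩
  have hle : ∀ e, Λ1 e ≤ ‖σ lam‖ := fun e => by
    have h1 := Finset.single_le_sum (f := fun c => |Λ1 c|) (fun _ _ => abs_nonneg _)
      (Finset.mem_univ e)
    have h2 := le_abs_self (Λ1 e)
    linarith
  have ht : 0 < Real.log ‖σ lam‖ := Real.log_pos (by linarith)
  choose Z hZ hZp hZeq hZd hZlog hZlw using fun e => hZ1 e lam (hle e)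
  have hcomp : ∀ θ, (γ.e θ).comp ι = σ := fun θ => RingHom.ext fun x => hγ θ x
  have heq : ∀ θ e, lev ((γ.e ((k : ℝ) • θ)).comp ι) (fun _ => vu hZ θ e) (C.W e) =
      γ.e ((k : ℝ) • θ) (rhs C w ι lam e) := by
    intro θ e
    rw [hcomp]
    have h1 := hZeq e θ
    have h2 : lev σ (fun _ : Fin 1 => vu hZ θ e) (C.W e) =
        lval σ (C.W e) fun _ : Fin 1 => Z e θ :=
      lev_uval (s := 0) (Z := fun _ => Z e) (fun _ => hZ e) θ σ
    rw [h2, h1]
    unfold rhs
    rw [map_mul, map_pow, hγ]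
    rfl
  set Γ0 : Torus (XR C w ι lam) n := mkC (W := C.W) (h := rhs C w ι lam) γ k hZ hZp heq with hΓ0
  refine ⟨Γ0, fun θ x => ?_, fun θ e => ?_, fun k' => ?_⟩
  · have h1 := mkC_base (W := C.W) (h := rhs C w ι lam) γ k hZ hZp heq (ι x) θ
    rw [hγ] at h1
    exact h1
  · have e1 : (fun _ : Fin 1 => (mkC (W := C.W) (h := rhs C w ι lam) γ k hZ hZp heq).e θ
        (cz ι C.W (rhs C w ι lam) e : CRing ι C.W (rhs C w ι lam))) = fun _ => Z e θ :=
      funext fun _ => mkC_z (W := C.W) (h := rhs C w ι lam) γ k hZ hZp heq e θ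
    have h2 := hZd e θ
    rw [← e1] at h2
    exact h2
  · have e1 : Γ0.reg (sym C w ι lam (D k')) = pairing fun i => Z (D k' i) :=
      mkC_reg (W := C.W) (h := rhs C w ι lam) γ k hZ hZp heq (D k')
    rw [e1]
    have h3 := hasy k' (fun i => Z (D k' i)) (Real.log ‖σ lam‖) ht (fun i => hZ _)
      (fun i θ => (hZlog (D k' i) θ).trans (hδ0le k'))
      (fun i j θ => by
        have h4 := (hZlw (D k' i) j θ).trans (hδ0le k')
        rw [Complex.ofReal_intCast]
        exact h4)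
    have e2 : γ.reg (lead C w ι (D k')) = ∑ i, (d (D k' i) : ℝ) *
        pairing (Function.update (fun i => γ.fn (C.f (D k' i) : A)) i fun _ => (2 : ℂ)) := by
      unfold lead
      rw [map_sum]
      refine Finset.sum_congr rfl fun i _ => ?_
      have hq : (((w (D k' i) * (C.F (D k' i)).natDegree : ℕ) : ℚ) : ℝ) = (d (D k' i) : ℝ) :=
        Rat.cast_natCast _
      rw [map_smul, Rat.smul_def, hq]
      congr 1
      unfold sub
      rw [Torus.reg_symb]
      unfold Torus.pair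
      congr 1
      funext l
      by_cases hl : l = i
      · subst hl
        rw [Function.update_self, Function.update_self]
        funext θ
        show γ.e θ (ι 2) = 2
        rw [hγ, map_ofNat]
      · rw [Function.update_of_ne hl, Function.update_of_ne hl]
    have e3 : kap c k (D k') * γ.reg (lead C w ι (D k')) =
        (∏ i, (c (D k' i) : ℝ)) * (∑ i, (d (D k' i) : ℝ) / k *
          pairing (Function.update (fun i => γ.fn (C.f (D k' i) : A)) i fun _ => (2 : ℂ))) /
            Real.log 2 := by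
      rw [e2]
      have e4 : ∑ i, (d (D k' i) : ℝ) / k *
          pairing (Function.update (fun i => γ.fn (C.f (D k' i) : A)) i fun _ => (2 : ℂ)) =
          (∑ i, (d (D k' i) : ℝ) *
            pairing (Function.update (fun i => γ.fn (C.f (D k' i) : A)) i
              fun _ => (2 : ℂ))) / k := by
        rw [Finset.sum_div]
        exact Finset.sum_congr rfl fun i _ => by ring
      rw [e4]
      unfold kap
      have hkR : (k : ℝ) ≠ 0 := by exact_mod_cast hk0.ne'
      have hl2 : Real.log 2 ≠ 0 := (Real.log_pos one_lt_two).ne'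
      field_simp
    rw [e3]
    exact h3

/-- The regulators of the symbols of different sets of indices are independent. -/
theorem exists_cov_tori (σ : K →+* ℂ) {C : Cov K A m} {ι : K →+* A} (hC : C.Admissible ι)
    {w : Fin m → ℕ} (hw : ∀ e, 0 < w e) {κ : Type*} [Fintype κ] [DecidableEq κ] (D : κ → Fin (n + 1) → Fin m)
    (hDi : ∀ k, Function.Injective (D k))
    (hD : ∀ k k', Set.range (D k) = Set.range (D k') → k = k')
    (γ : κ → Torus A n) (hγ : ∀ t θ x, (γ t).e θ (ι x) = σ x)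
    (hne : ∀ k, (γ k).reg (lead C w ι (D k)) ≠ 0) :
    ∃ Λ0 : ℝ, 1 < Λ0 ∧ ∀ lam : K, Λ0 ≤ ‖σ lam‖ → ∃ Γ : κ → Torus (XR C w ι lam) n,
      (∀ t θ x, (Γ t).e θ (xbase C w ι lam (ι x)) = σ x) ∧
      (∀ t θ e, ∃ i, lder σ (C.W e) (fun _ : Fin 1 =>
        (Γ t).e θ (xz C w ι lam e : XR C w ι lam)) i ≠ 0) ∧
      (Matrix.of fun t k => (Γ t).reg (sym C w ι lam (D k))).det ≠ 0 := by
  classical
  -- the two ends
  set sgn : Bool → ℤ := fun b => if b then 1 else -1 with hsgn
  have hsgn0 : ∀ b, sgn b ≠ 0 := by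
    intro b
    cases b <;> simp [hsgn]
  have hsgn2 : ∀ b, sgn b * sgn b = 1 := by
    intro b
    cases b <;> simp [hsgn]
  choose v hvpos hv hmax using fun (e : Fin m) (b : Bool) =>
    exists_end (hC.interior e) (sgn b) (hsgn0 b)
  set k0 : ℕ := ∏ e, ((v e true 0).natAbs * (v e false 0).natAbs) with hk0
  have hvne : ∀ e b, v e b 0 ≠ 0 := by
    intro e b h
    have h1 := hvpos e b
    rw [h, mul_zero] at h1
    exact lt_irrefl _ h1
  have hkpos : 0 < k0 := Finset.prod_pos fun e _ =>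
    Nat.mul_pos (Int.natAbs_pos.2 (hvne e true)) (Int.natAbs_pos.2 (hvne e false))
  have hdvd : ∀ e b, v e b 0 ∣ (k0 : ℤ) := by
    intro e b
    rw [← Int.natAbs_dvd, Int.natCast_dvd_natCast]
    refine dvd_trans ?_ (Finset.dvd_prod_of_mem
      (fun e => (v e true 0).natAbs * (v e false 0).natAbs) (Finset.mem_univ e))
    cases b
    · exact dvd_mul_left _ _
    · exact dvd_mul_right _ _
  choose c hc' using hdvd
  have hc : ∀ e b, (k0 : ℤ) = c e b * v e b 0 := fun e b => by rw [hc' e b, mul_comm]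
  have hcs : ∀ e b, 0 < sgn b * c e b := by
    intro e b
    have h1 : (0 : ℤ) < (k0 : ℤ) := by exact_mod_cast hkpos
    have h2 : (k0 : ℤ) = (sgn b * c e b) * (sgn b * v e b 0) := by
      rw [hc e b]
      linear_combination (-(c e b * v e b 0)) * hsgn2 b
    rw [h2] at h1
    exact (pos_iff_pos_of_mul_pos h1).2 (hvpos e b)
  have hmaxc : ∀ e b p, (C.W e).coeff p ≠ 0 → p ≠ v e b → c e b * p 0 < c e b * v e b 0 := by
    intro e b p hp hpv
    have h1 := mul_lt_mul_of_pos_left (hmax e b p hp hpv) (hcs e b)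
    have h2 : ∀ x : ℤ, sgn b * c e b * (sgn b * x) = c e b * x := fun x => by
      linear_combination (c e b * x) * hsgn2 b
    rw [h2, h2] at h1
    exact h1
  have hcne : ∀ e, ((c e true : ℤ) : ℝ) ≠ c e false := by
    intro e h
    have h1 := hcs e true
    have h2 := hcs e false
    have h3 : c e true = c e false := by exact_mod_cast h
    simp only [hsgn] at h1 h2
    simp only [if_true, one_mul, Bool.false_eq_true, if_false] at h1 h2
    omega
  set M : κ × (Fin m → Bool) → κ → ℝ := fun r k =>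
    kap (fun e => c e (r.2 e)) k0 (D k) * (γ r.1).reg (lead C w ι (D k)) with hM
  have hkl : (k0 : ℝ) * Real.log 2 ≠ 0 :=
    mul_ne_zero (by exact_mod_cast hkpos.ne') (Real.log_pos one_lt_two).ne'
  obtain ⟨f, hf⟩ := exists_minor M (fun x hx => by
    funext k
    have h1 := prod_indep (fun e b => ((c e b : ℤ) : ℝ)) hcne
      (fun j => Finset.univ.image (D j)) (N := n + 1) (fun j => by
        rw [Finset.card_image_of_injective _ (hDi j), Finset.card_univ, Fintype.card_fin])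
      (fun j j' h => hD j j' (by
        have h2 := congrArg (fun S : Finset (Fin m) => (S : Set (Fin m))) h
        simpa using h2))
      (fun j => (γ k).reg (lead C w ι (D j)) * x j) (fun s => by
        have h2 := hx (k, s)
        have h3 : ∀ j, ∏ e ∈ Finset.univ.image (D j), ((c e (s e) : ℤ) : ℝ) =
            ∏ i, ((c (D j i) (s (D j i)) : ℤ) : ℝ) := fun j =>
          Finset.prod_image fun a _ b _ hab => hDi j hab
        have h4 : ∑ j, (γ k).reg (lead C w ι (D j)) * x j *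
            ∏ e ∈ Finset.univ.image (D j), ((c e (s e) : ℤ) : ℝ) =
            ((k0 : ℝ) * Real.log 2) * ∑ j, M (k, s) j * x j := by
          rw [Finset.mul_sum]
          refine Finset.sum_congr rfl fun j _ => ?_
          rw [h3]
          simp only [hM]
          unfold kap
          field_simp
        rw [h4, h2, mul_zero])
    have h2 := congrFun h1 k
    exact (mul_eq_zero.1 h2).resolve_left (hne k))
  obtain ⟨δ, hδ, hnear⟩ := Pool.Agent.TH826.SX.det_ne_zero_near _ hf
  choose Λ hΛ1 hΛ using fun t : κ => exists_cov_torus σ hC hw hkpos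
    (fun e => hc e ((f t).2 e)) (fun e => hv e ((f t).2 e)) (fun e => hmaxc e ((f t).2 e))
    (γ (f t).1) (hγ (f t).1) D (ε := δ / 2) (by linarith)
  have hsum : 0 ≤ ∑ c, |Λ c| := Finset.sum_nonneg fun _ _ => abs_nonneg _
  refine ⟨2 + ∑ c, |Λ c|, by linarith, fun lam hlam => ?_⟩
  have hle : ∀ c, Λ c ≤ ‖σ lam‖ := fun c => by
    have h1 := Finset.single_le_sum (f := fun c => |Λ c|) (fun _ _ => abs_nonneg _)
      (Finset.mem_univ c)
    have h2 := le_abs_self (Λ c)
    linarith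
  choose Γ hΓσ hΓd hΓ using fun t => hΛ t lam (hle t)
  refine ⟨Γ, hΓσ, hΓd, ?_⟩
  have h1 := hnear (Matrix.of fun t k =>
    (Γ t).reg (sym C w ι lam (D k)) / Real.log ‖σ lam‖)
    (fun t k => by
      rw [Matrix.of_apply, Matrix.of_apply]
      exact lt_of_le_of_lt (hΓ t k) (by linarith))
  intro h0
  apply h1
  have h4 : (Matrix.of fun t k => (Γ t).reg (sym C w ι lam (D k)) / Real.log ‖σ lam‖) =
      (Real.log ‖σ lam‖)⁻¹ • Matrix.of fun t k => (Γ t).reg (sym C w ι lam (D k)) := by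
    ext t k
    rw [Matrix.smul_apply, Matrix.of_apply, Matrix.of_apply, smul_eq_mul, div_eq_inv_mul]
  rw [h4, Matrix.det_smul, h0, mul_zero]

end exist

end Pool.Agent.L7h9.WC
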