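import Pool.Agent.L7h9.CP.Unr
import Pool.Agent.L7h9.WC.Defs
set_option autoImplicit false

/-!
The classes of nonlinear circuits with weights are unramified.
-/

namespace Pool.Agent.L7h9.WC

open scoped WithZero

open Pool.Agent.TH826.MK

open Pool.Agent.N65.TL

open Pool.Agent.L7h9.CP (Cov CRing instCRing cbase cz lev_lead lev_le_one poly_le_one poly_lead
  mem_of_replace eqn_hom)

section circuit

variable {L : Type*} [Field L] {n : ℕ}

/-- The symbol with the entries `y_i` at the places with `v y_i > 1`. -/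
theorem mem_of_relation' (v : Valuation L ℤᵐ⁰) (a : Fin (n + 1) → Lˣ) (y : Fin (n + 1) → L)
    {α : Fin (n + 1) → ℕ} (hα : ∀ i, 0 < α i)
    (c : Fin (n + 1) → Lˣ) (hc : ∀ i, ∃ k : ℕ, k ≠ 0 ∧ c i ^ k = 1) {i0 : Fin (n + 1)}
    (hi0 : ∀ i, v (y i) ^ α i ≤ v (y i0) ^ α i0) (hbig : 1 < v (y i0))
    (hrel : v (∑ i, (c i : L) * y i ^ α i) < v (y i0) ^ α i0)
    (ha : ∀ i, 1 < v (y i) → (a i : L) = y i) : symb a ∈ unitPart v (n + 1) := by
  classical
  have hvc : ∀ i, v (c i : L) = 1 := by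
    intro i
    obtain ⟨k, hk, hk1⟩ := hc i
    exact val_root v hk (by rw [← Units.val_pow_eq_pow_val, hk1, Units.val_one])
  have hvpos : 0 < v (y i0) := zero_lt_one.trans hbig
  have hvp : 0 < v (y i0) ^ α i0 := pow_pos hvpos _
  have hai0 := ha i0 hbig
  set T : Type := {i : Fin (n + 1) // 1 < v (y i) ∧ i ≠ i0} with hT
  set q : T → Fin (n + 1) → ℤ := fun i => (α i.1 : ℤ) • Pi.single i.1 1 -
    (α i0 : ℤ) • Pi.single i0 1 with hq
  have hlin : LinearIndependent ℤ q := by
    rw [Fintype.linearIndependent_iff]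
    intro g hg j
    have h1 := congrFun hg j.1
    rw [Finset.sum_apply, Pi.zero_apply, Finset.sum_eq_single j] at h1
    · rw [Pi.smul_apply, hq, smul_eq_mul] at h1
      have h3 : g j * (α j.1 : ℤ) = 0 := by
        simpa [Pi.single_apply, j.2.2] using h1
      have h4 : (α j.1 : ℤ) ≠ 0 := by exact_mod_cast (hα j.1).ne'
      exact (mul_eq_zero.1 h3).resolve_right h4
    · intro i _ hij
      rw [Pi.smul_apply, hq, smul_eq_mul]
      have h2 : j.1 ≠ i.1 := fun h => hij (Subtype.ext h.symm)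
      simp [Pi.single_apply, j.2.2, h2]
    · intro h
      exact absurd (Finset.mem_univ j) h
  have hmon : ∀ i : T, mon (fun j => a (id j)) (q i) = a i.1 ^ α i.1 / a i0 ^ α i0 := by
    intro i
    rw [hq, mon_sub, mon_smul, mon_smul, mon_single, mon_single, zpow_natCast, zpow_natCast]
    rfl
  have hval : ∀ i : T, ((c i.1 / c i0 * mon (fun j => a (id j)) (q i) : Lˣ) : L) =
      ((c i.1 : L) * y i.1 ^ α i.1) / ((c i0 : L) * y i0 ^ α i0) := by
    intro i
    rw [hmon, Units.val_mul, Units.val_div_eq_div_val, Units.val_div_eq_div_val,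
      Units.val_pow_eq_pow_val, Units.val_pow_eq_pow_val, ha i.1 i.2.1,
      hai0, div_mul_div_comm]
  refine mem_unitPart_of_indep v a (p := id) Function.injective_id q hlin
    (fun i => c i.1 / c i0) (fun i => ?_) (fun i => ?_) ?_
  · obtain ⟨k1, hk1, hk1'⟩ := hc i.1
    obtain ⟨k2, hk2, hk2'⟩ := hc i0
    refine ⟨k1 * k2, mul_ne_zero hk1 hk2, ?_⟩
    rw [div_pow, pow_mul, hk1', one_pow, mul_comm k1 k2, pow_mul, hk2', one_pow, div_one]
  · rw [hval, map_div₀, map_mul, map_mul, hvc, hvc, one_mul, one_mul, map_pow, map_pow,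
      div_le_one₀ hvp]
    exact hi0 i.1
  · have hsum : (1 : L) + ∑ i : T, ((c i.1 / c i0 * mon (fun j => a (id j)) (q i) : Lˣ) : L) =
        (∑ i, (c i : L) * y i ^ α i -
          ∑ i : {i : Fin (n + 1) // ¬ 1 < v (y i)}, (c i.1 : L) * y i.1 ^ α i.1) /
            ((c i0 : L) * y i0 ^ α i0) := by
      have hne : (c i0 : L) * y i0 ^ α i0 ≠ 0 :=
        mul_ne_zero (c i0).ne_zero (pow_ne_zero _ ((Valuation.ne_zero_iff v).1 hvpos.ne'))
      simp only [hval]
      rw [← Finset.sum_div, eq_div_iff hne, add_mul, one_mul, div_mul_cancel₀ _ hne]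
      have h1 := Fintype.sum_subtype_add_sum_subtype (fun i => 1 < v (y i))
        (fun i => (c i : L) * y i ^ α i)
      have h2 : ∑ i : {i : Fin (n + 1) // 1 < v (y i)}, (c i.1 : L) * y i.1 ^ α i.1 =
          (c i0 : L) * y i0 ^ α i0 + ∑ i : T, (c i.1 : L) * y i.1 ^ α i.1 := by
        have h3 : ∀ (P : Fin (n + 1) → Prop) [DecidablePred P],
            ∑ i : {i // P i}, (c i.1 : L) * y i.1 ^ α i.1 =
              ∑ i ∈ Finset.univ.filter P, (c i : L) * y i ^ α i := by
          intro P _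
          rw [← Finset.sum_subtype_eq_sum_filter]
          simp
        rw [h3, h3]
        rw [← Finset.add_sum_erase (Finset.univ.filter fun i => 1 < v (y i)) _
          (Finset.mem_filter.2 ⟨Finset.mem_univ i0, hbig⟩)]
        congr 1
        refine Finset.sum_congr ?_ fun _ _ => rfl
        ext i
        simp [and_comm]
      rw [h2] at h1
      linear_combination h1
    rw [hsum, map_div₀, map_mul, hvc, one_mul, map_pow, div_lt_one₀ hvp]
    refine Valuation.map_sub_lt v hrel ?_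
    have hone : 1 < v (y i0) ^ α i0 := one_lt_pow₀ hbig (hα i0).ne'
    refine lt_of_le_of_lt (Valuation.map_sum_le v fun i _ => ?_) hone
    rw [map_mul, hvc, one_mul, map_pow]
    exact pow_le_one' (not_lt.1 i.2) _

end circuit

section value

variable {K L : Type*} [Field K] [Field L] {n k : ℕ}

/-- The index with the largest weighted value. -/
theorem exists_max_weighted (f : Fin (n + 1) → ℤᵐ⁰) {w : Fin (n + 1) → ℕ} (hw : ∀ e, 0 < w e) :
    ∃ im, ∀ e, f e ^ w im ≤ f im ^ w e := by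
  classical
  set u : Fin (n + 1) → ℕ := fun e => ∏ e' ∈ Finset.univ.erase e, w e' with hu
  set N : ℕ := ∏ e, w e with hN
  have hN0 : N ≠ 0 := (Finset.prod_pos fun e _ => hw e).ne'
  have huN : ∀ e, w e * u e = N := fun e => Finset.mul_prod_erase _ _ (Finset.mem_univ e)
  obtain ⟨im, him⟩ := Finite.exists_max fun e => f e ^ u e
  refine ⟨im, fun e => ?_⟩
  rw [← pow_le_pow_iff_left₀ zero_le zero_le hN0]
  have h1 := pow_le_pow_left₀ zero_le (him e) (w im * w e)
  have e1 : (f e ^ w im) ^ N = (f e ^ u e) ^ (w im * w e) := by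
    rw [← pow_mul, ← pow_mul, ← huN e]
    congr 1
    ring
  have e2 : (f im ^ w e) ^ N = (f im ^ u im) ^ (w im * w e) := by
    rw [← pow_mul, ← pow_mul, ← huN im]
    congr 1
    ring
  rw [e1, e2]
  exact h1

/-- The value of the part of smaller weighted degree. -/
theorem low_lt (κ : K →+* L) (v : Valuation L ℤᵐ⁰) {w : Fin (n + 1) → ℕ} (hw : ∀ e, 0 < w e)
    {Q : MvPolynomial (Fin (n + 1)) K} {k0 : ℕ} {im : Fin (n + 1)}
    (hQ : ∀ μ, IsIntegral ℤ (Q.coeff μ))
    (hk : ∀ μ, Q.coeff μ ≠ 0 → ∑ e, w e * μ e < w im * k0) {lam : K}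
    (hlam : IsIntegral ℤ lam) (G : Fin (n + 1) → L)
    (hB : 1 < v (κ lam ^ w im * G im))
    (hG : ∀ e, v (κ lam ^ w e * G e) ^ w im ≤ v (κ lam ^ w im * G im) ^ w e) :
    v (κ lam ^ (w im * k0) * MvPolynomial.eval₂ κ G Q) < v (κ lam ^ w im * G im) ^ k0 := by
  rw [MvPolynomial.eval₂_eq', Finset.mul_sum]
  have hB0 : v (κ lam ^ w im * G im) ≠ 0 := (zero_lt_one.trans hB).ne'
  refine Valuation.map_sum_lt v (pow_ne_zero _ hB0) fun μ hμ => ?_
  have hdeg := hk μ (MvPolynomial.mem_support_iff.1 hμ)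
  have h1 : κ lam ^ (w im * k0) * (κ (Q.coeff μ) * ∏ e, G e ^ μ e) =
      κ (Q.coeff μ) * κ lam ^ (w im * k0 - ∑ e, w e * μ e) *
        ∏ e, (κ lam ^ w e * G e) ^ μ e := by
    simp only [mul_pow]
    rw [Finset.prod_mul_distrib]
    have h2 : ∏ e, (κ lam ^ w e) ^ μ e = κ lam ^ (∑ e, w e * μ e) := by
      rw [← Finset.prod_pow_eq_pow_sum]
      exact Finset.prod_congr rfl fun e _ => (pow_mul _ _ _).symm
    have h3 : κ lam ^ (w im * k0) = κ lam ^ (w im * k0 - ∑ e, w e * μ e) *
        κ lam ^ (∑ e, w e * μ e) := by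
      rw [← pow_add]
      congr 1
      omega
    rw [h2, h3]
    ring
  rw [h1, map_mul, map_mul, map_pow, map_prod]
  have h4 : ∏ e, v ((κ lam ^ w e * G e) ^ μ e) < v (κ lam ^ w im * G im) ^ k0 := by
    rw [← pow_lt_pow_iff_left₀ zero_le zero_le (hw im).ne']
    calc (∏ e, v ((κ lam ^ w e * G e) ^ μ e)) ^ w im
        = ∏ e, (v (κ lam ^ w e * G e) ^ w im) ^ μ e := by
          rw [← Finset.prod_pow]
          refine Finset.prod_congr rfl fun e _ => ?_
          rw [map_pow, ← pow_mul, ← pow_mul, mul_comm (μ e)]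
      _ ≤ ∏ e, (v (κ lam ^ w im * G im) ^ w e) ^ μ e :=
          Finset.prod_le_prod' fun e _ => pow_le_pow_left' (hG e) _
      _ = v (κ lam ^ w im * G im) ^ (∑ e, w e * μ e) := by
          rw [← Finset.prod_pow_eq_pow_sum]
          exact Finset.prod_congr rfl fun e _ => (pow_mul _ _ _).symm
      _ < v (κ lam ^ w im * G im) ^ (w im * k0) := pow_lt_pow_right₀ hB hdeg
      _ = (v (κ lam ^ w im * G im) ^ k0) ^ w im := by rw [← pow_mul, mul_comm k0]
  refine lt_of_le_of_lt ?_ h4
  calc v (κ (Q.coeff μ)) * v (κ lam) ^ (w im * k0 - ∑ e, w e * μ e) *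
        ∏ e, v ((κ lam ^ w e * G e) ^ μ e)
      ≤ 1 * ∏ e, v ((κ lam ^ w e * G e) ^ μ e) := mul_le_mul' (mul_le_one'
        (val_le_one_of_integral v (map_isIntegral_int κ (hQ μ)))
        (pow_le_one' (val_le_one_of_integral v (map_isIntegral_int κ hlam)) _)) le_rfl
    _ = _ := one_mul _

/-- One of the diagonal forms has a small value. -/
theorem exists_small_form (κ : K →+* L) (v : Valuation L ℤᵐ⁰) {w : Fin (n + 1) → ℕ}
    (hw : ∀ e, 0 < w e) {c : Fin k → Fin (n + 1) → K} {a : Fin k → Fin (n + 1) → ℕ}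
    {kap : Fin k → ℕ} (ha : ∀ i e, w e * a i e = kap i) {Q : MvPolynomial (Fin (n + 1)) K}
    (hQ : ∀ μ, IsIntegral ℤ (Q.coeff μ))
    (hk : ∀ μ, Q.coeff μ ≠ 0 → ∑ e, w e * μ e < ∑ i, kap i) {lam : K}
    (hlam : IsIntegral ℤ lam) (G : Fin (n + 1) → L)
    (hrel : MvPolynomial.eval₂ κ G (rel c a Q) = 0) {im : Fin (n + 1)}
    (hB : 1 < v (κ lam ^ w im * G im))
    (hG : ∀ e, v (κ lam ^ w e * G e) ^ w im ≤ v (κ lam ^ w im * G im) ^ w e) :
    ∃ i, v (∑ e, κ (c i e) * (κ lam ^ w e * G e) ^ a i e) <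
      v (κ lam ^ w im * G im) ^ a i im := by
  by_contra hcon
  push Not at hcon
  have hsum : w im * ∑ i, a i im = ∑ i, kap i := by
    rw [Finset.mul_sum]
    exact Finset.sum_congr rfl fun i _ => ha i im
  have h1 : ∏ i, (∑ e, κ (c i e) * (κ lam ^ w e * G e) ^ a i e) =
      -(κ lam ^ (w im * ∑ i, a i im) * MvPolynomial.eval₂ κ G Q) := by
    have h2 : MvPolynomial.eval₂ κ G (rel c a Q) =
        ∏ i, (∑ e, κ (c i e) * G e ^ a i e) + MvPolynomial.eval₂ κ G Q := by
      unfold rel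
      rw [MvPolynomial.eval₂_add]
      congr 1
      have h3 : ∀ p, MvPolynomial.eval₂ κ G p = MvPolynomial.eval₂Hom κ G p := fun p => rfl
      rw [h3, map_prod]
      refine Finset.prod_congr rfl fun i _ => ?_
      rw [map_sum]
      refine Finset.sum_congr rfl fun e _ => ?_
      rw [map_mul, map_pow, MvPolynomial.eval₂Hom_C, MvPolynomial.eval₂Hom_X']
    rw [h2] at hrel
    have h4 : ∏ i, (∑ e, κ (c i e) * (κ lam ^ w e * G e) ^ a i e) =
        κ lam ^ (w im * ∑ i, a i im) * ∏ i, (∑ e, κ (c i e) * G e ^ a i e) := by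
      have h5 : ∀ i, (∑ e, κ (c i e) * (κ lam ^ w e * G e) ^ a i e) =
          κ lam ^ kap i * ∑ e, κ (c i e) * G e ^ a i e := by
        intro i
        rw [Finset.mul_sum]
        refine Finset.sum_congr rfl fun e _ => ?_
        rw [mul_pow, ← pow_mul, ha]
        ring
      simp only [h5]
      rw [Finset.prod_mul_distrib, Finset.prod_pow_eq_pow_sum, hsum]
    rw [h4]
    linear_combination κ lam ^ (w im * ∑ i, a i im) * hrel
  have h2 : v (κ lam ^ w im * G im) ^ (∑ i, a i im) ≤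
      v (∏ i, (∑ e, κ (c i e) * (κ lam ^ w e * G e) ^ a i e)) := by
    rw [map_prod, ← Finset.prod_pow_eq_pow_sum]
    exact Finset.prod_le_prod' fun i _ => hcon i
  rw [h1, Valuation.map_neg] at h2
  have h3 := low_lt κ v hw hQ (fun μ hμ => by rw [hsum]; exact hk μ hμ) hlam G hB hG
  exact absurd h2 (not_le.2 h3)

end value

section main

variable {K A : Type*} [Field K] [CommRing A] {m n k : ℕ}

theorem sym_unramified' {C : Cov K A m} {ι : K →+* A} (hC : C.Admissible ι) {w : Fin m → ℕ}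
    (hw : ∀ e, 0 < w e) {lam : K}
    (hlam : IsIntegral ℤ lam) {D : Fin (n + 1) → Fin m} {c : Fin k → Fin (n + 1) → K}
    {a : Fin k → Fin (n + 1) → ℕ} {kap : Fin k → ℕ} (hkap : ∀ i, 0 < kap i)
    (hc : ∀ i e, ∃ j : ℕ, j ≠ 0 ∧ c i e ^ j = 1) (ha : ∀ i e, w (D e) * a i e = kap i)
    {Q : MvPolynomial (Fin (n + 1)) K}
    (hQ : ∀ μ, IsIntegral ℤ (Q.coeff μ))
    (hk : ∀ μ, Q.coeff μ ≠ 0 → ∑ e, w (D e) * μ e < ∑ i, kap i)
    (hrel : MvPolynomial.eval₂ ι (fun i => C.g (D i)) (rel c a Q) = 0) {L : Type*} [Field L]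
    (f : XR C w ι lam →+* L) : KQ.map (n + 1) f (sym C w ι lam D) ∈ Unramified L (n + 1) := by
  classical
  unfold Unramified
  simp only [Submodule.mem_iInf]
  intro v _
  unfold sym
  rw [KQ.map_symb]
  set φ : A →+* L := f.comp (xbase C w ι lam) with hφ
  set κ : K →+* L := φ.comp ι with hκ
  set z : Fin m → Lˣ := fun e => Units.map (f : XR C w ι lam →* L) (xz C w ι lam e) with hz
  have heqn : ∀ e, lev κ (fun _ => z e) (C.W e) =
      κ (lam ^ w e) ^ (C.F e).natDegree * (C.F e).eval₂ κ (φ (C.g e)) := by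
    intro e
    have h1 : lev κ (fun _ => z e) (C.W e) = φ (rhs C w ι lam e) :=
      eqn_hom (W := C.W) (h := rhs C w ι lam) f e
    rw [h1]
    unfold rhs
    rw [map_mul, map_pow, hC.val e, Polynomial.hom_eval₂, map_pow, ← pow_mul]
    rfl
  have hlamw : ∀ e, IsIntegral ℤ (lam ^ w e) := fun e => hlam.pow _
  set y : Fin (n + 1) → L := fun i => κ (lam ^ w (D i)) * φ (C.g (D i)) with hy
  have hyw : ∀ i, y i = κ lam ^ w (D i) * φ (C.g (D i)) := fun i => by
    simp only [hy]
    rw [map_pow]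
  have hsmall : ∀ i, ¬ 1 < v (y i) → v (z (D i) : L) = 1 := by
    intro i hi
    by_contra hne
    obtain ⟨p, ρ, -, -, h1, -⟩ := lev_lead κ v (hC.integralW (D i)) (hC.interior (D i))
      (hC.ends (D i)) hne
    rw [heqn] at h1
    exact absurd (poly_le_one κ v (hC.integral (D i)) (hlamw (D i)) (not_lt.1 hi)) (not_le.2 h1)
  by_cases hex : ∃ i, 1 < v (y i)
  · set b : Fin (n + 1) → Lˣ := fun i => if h : 1 < v (y i) then
      Units.mk0 (y i) ((Valuation.ne_zero_iff v).1 (zero_lt_one.trans h).ne') else 1 with hb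
    have hbv : ∀ i, 1 < v (y i) → (b i : L) = y i := by
      intro i hi
      simp only [hb]
      rw [dif_pos hi]
      rfl
    -- the small form
    obtain ⟨im, him⟩ := exists_max_weighted (fun i => v (y i)) (w := fun e => w (D e))
      fun e => hw (D e)
    have hbig : 1 < v (y im) := by
      obtain ⟨i, hi⟩ := hex
      by_contra hcon
      have h1 : 1 < v (y i) ^ w (D im) := one_lt_pow₀ hi (hw (D im)).ne'
      have h2 : v (y im) ^ w (D i) ≤ 1 := pow_le_one' (not_lt.1 hcon) _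
      exact absurd ((h1.trans_le (him i)).trans_le h2) (lt_irrefl _)
    have hrel' : MvPolynomial.eval₂ κ (fun i => φ (C.g (D i))) (rel c a Q) = 0 := by
      have h1 := congrArg φ hrel
      rw [map_zero] at h1
      rw [← h1, MvPolynomial.eval₂_comp_left]
      rfl
    obtain ⟨j0, hj0⟩ := exists_small_form κ v (w := fun e => w (D e)) (fun e => hw (D e)) ha hQ hk
      hlam (fun i => φ (C.g (D i))) hrel' (im := im) (by rw [← hyw]; exact hbig) (fun e => by
        rw [← hyw, ← hyw]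
        exact him e)
    simp only [← hyw] at hj0
    have hc0 : ∀ i, κ (c j0 i) ≠ 0 := by
      intro i
      obtain ⟨k, hk, hk1⟩ := hc j0 i
      rw [map_ne_zero]
      rintro h0
      rw [h0, zero_pow hk] at hk1
      exact zero_ne_one hk1
    have hapos : ∀ i, 0 < a j0 i := by
      intro i
      refine Nat.pos_of_ne_zero fun h0 => ?_
      have h1 := ha j0 i
      rw [h0, mul_zero] at h1
      exact (hkap j0).ne h1
    refine mem_of_replace v _ b (Finset.univ.filter fun i => 1 < v (y i)) (fun i hi => ?_) ?_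
    · have hi' : 1 < v (y i) := (Finset.mem_filter.1 hi).2
      have hH := poly_lead κ v (hC.monic (D i)) (hC.pos (D i)) (hC.integral (D i))
        (hlamw (D i)) hi'
      rw [← heqn] at hH
      have hvH : v (lev κ (fun _ => z (D i)) (C.W (D i))) = v (y i) ^ (C.F (D i)).natDegree := by
        have h1 := Valuation.map_add_eq_of_lt_right v (x := lev κ (fun _ => z (D i)) (C.W (D i)) -
          y i ^ (C.F (D i)).natDegree) (y := y i ^ (C.F (D i)).natDegree) (by
            rw [map_pow]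
            exact hH)
        rw [sub_add_cancel, map_pow] at h1
        exact h1
      have hzne : v (z (D i) : L) ≠ 1 := by
        intro h1
        have h2 := lev_le_one κ v (hC.integralW (D i)) h1
        rw [hvH] at h2
        exact absurd h2 (not_le.2 (one_lt_pow₀ hi' (hC.pos (D i)).ne'))
      obtain ⟨p, ρ, hp, hρ, h1, h2⟩ := lev_lead κ v (hC.integralW (D i)) (hC.interior (D i))
        (hC.ends (D i)) hzne
      refine ⟨p, (C.F (D i)).natDegree, ρ,
        ρ * z (D i) ^ p / b i ^ ((C.F (D i)).natDegree : ℤ), hp, hρ, ?_, ?_⟩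
      · have hy0 : y i ^ (C.F (D i)).natDegree ≠ 0 :=
          pow_ne_zero _ ((Valuation.ne_zero_iff v).1 (zero_lt_one.trans hi').ne')
        have e1 : ((ρ * z (D i) ^ p / b i ^ ((C.F (D i)).natDegree : ℤ) : Lˣ) : L) - 1 =
            (((ρ * z (D i) ^ p : Lˣ) : L) - y i ^ (C.F (D i)).natDegree) /
              y i ^ (C.F (D i)).natDegree := by
          rw [Units.val_div_eq_div_val, zpow_natCast, Units.val_pow_eq_pow_val, hbv i hi',
            sub_div, div_self hy0]
        rw [e1, map_div₀, map_pow, div_lt_one₀ (pow_pos (zero_lt_one.trans hi') _)]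
        have e2 : ((ρ * z (D i) ^ p : Lˣ) : L) - y i ^ (C.F (D i)).natDegree =
            (((ρ * z (D i) ^ p : Lˣ) : L) - lev κ (fun _ => z (D i)) (C.W (D i))) +
              (lev κ (fun _ => z (D i)) (C.W (D i)) - y i ^ (C.F (D i)).natDegree) := by ring
        rw [e2]
        refine Valuation.map_add_lt v ?_ hH
        rw [← hvH]
        exact h2
      · exact (mul_div_cancel _ _).symm
    · refine mem_of_relation' v _ y hapos (fun i => Units.mk0 (κ (c j0 i)) (hc0 i)) (fun i => ?_)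
        (i0 := im) (fun i => ?_) hbig hj0 (fun i hi => ?_)
      · obtain ⟨k, hk, hk1⟩ := hc j0 i
        refine ⟨k, hk, ?_⟩
        apply Units.ext
        rw [Units.val_pow_eq_pow_val, Units.val_mk0, ← map_pow, hk1, map_one, Units.val_one]
      · rw [← pow_le_pow_iff_left₀ zero_le zero_le (hw (D im)).ne', ← pow_mul, ← pow_mul,
          mul_comm (a j0 im), ha j0 im, ← ha j0 i, mul_comm (a j0 i), pow_mul, pow_mul]
        exact pow_le_pow_left' (him i) _
      · rw [if_pos (Finset.mem_filter.2 ⟨Finset.mem_univ i, hi⟩)]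
        exact hbv i hi
  · push Not at hex
    exact Submodule.subset_span ⟨_, fun i => hsmall i (not_lt.2 (hex i)), rfl⟩

end main

end Pool.Agent.L7h9.WC
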